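import Pool.Agent.MP_de21d3_co.H85.Light2

/-!
Two timed teams, used in turn, forbid the low levels.
-/

namespace Pool.Agent.MP_de21d3_co.H85

open Finset Function H91 H6

variable {V : Type} {G : SimpleGraph V}

theorem barrier (hG : G.Connected) {k : ℕ} {R : Finset V} {Tg Out : V → Prop} {lv : V → ℕ}
    {L₀ L L' L₁ t : ℕ} (h : TT G k R Tg lv L₁ t)
    (lip : ∀ u ∈ R, ∀ v ∈ R, near G u v → lv u ≤ lv v + 1) (o1 : ∀ r ∈ R, L' < lv r → Out r)
    (o2 : ∀ r ∈ R, Out r → L < lv r)
    (o3 : ∀ r ∈ R, ∀ r' ∈ R, Out r → near G r r' → Out r' ∨ (Tg r' ∧ lv r' ≤ L'))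
    (h1 : L' ≤ L₁) (h2 : t ≤ 3 * (L₁ - L')) (h3 : t + 2 * L₀ ≤ L₁ + L) (h4 : L₀ ≤ L) :
    St G (2 * k) R (R.filter (lv · ≤ L')) (R.filter (lv · ≤ L₀)) := by
  obtain ⟨ι, _, c₀, Pl, a, b, d⟩ := h
  have win : ∀ m u c, ∀ r ∈ R, t ≤ u + m → Pl u c r → lv r ≤ L₁ → lv r + t ≤ L₁ + u →
      Ex G R c r := fun m => by
    induction m with
    | zero => exact fun u c r hr e p q _ => (d u c r hr p q).resolve_right fun x => by omega
    | succ m ih =>
      intro u c r hr e p q w
      rcases d u c r hr p q with x | ⟨x, c', y, f⟩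
      · exact x
      refine .step c' y fun r' hn => (em (r' ∈ R)).elim (fun hr' => ?_) fun hr' => .done hr'
      have := lip _ hr' _ hr (nsymm hn)
      exact ih (u + 1) c' r' hr' (by omega) (f r' hr' hn (by omega)) (by omega) (by omega)
  have inj : ∀ b : Bool, Injective fun i : ι => (b, i) := fun b i j e => (Prod.ext_iff.1 e).2
  refine ⟨Bool × ι, inferInstance, fun c r => ∃ b : Bool,
    (Out r ∧ (∀ i, G.dist (c (b, i)) (c₀ i) ≤ lv r - L') ∧
      ∀ i, G.dist (c (!b, i)) (c₀ i) ≤ lv r - L' + 2 * (L₁ - L')) ∨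
    ∃ u, Pl u (c ∘ fun i => (b, i)) r ∧ lv r ≤ L₁ ∧ L ≤ lv r + u ∧
      (∀ i, G.dist (c (b, i)) (c₀ i) ≤ u) ∧
      ∀ i, G.dist (c (!b, i)) (c₀ i) ≤ L₁ - lv r + (L₁ - L'), fun y => c₀ y.2, by
      simp only [Fintype.card_prod, Fintype.card_bool]; omega, ?_, fun r hr hB => .done (.inr
        ⟨true, .inl ⟨o1 r hr (not_le.1 fun e => hB (mem_filter.2 ⟨hr, e⟩)), by simp, by simp⟩⟩)⟩
  intro c r ⟨b', hA⟩ hr
  choose w w1 w2 using fun y : Bool × ι => toward hG (c y) (c₀ y.2)
  rcases hA with ⟨p, q, s⟩ | ⟨u, p, q, s, e, f⟩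
  · have z := o2 r hr p
    refine .inr ⟨fun x => by have := (mem_filter.1 x).2; omega, w, w1, fun r' hr' hn => ⟨b', ?_⟩⟩
    have l1 := lip _ hr _ hr' hn
    rcases o3 r hr r' hr' p hn with o | ⟨o, o'⟩
    · refine .inl ⟨o, fun i => ?_, fun i => ?_⟩
      · have := w2 (b', i); have := q i; dsimp only at *; omega
      · have := w2 (!b', i); have := s i; dsimp only at *; omega
    · have e : ∀ i, G.dist (w (b', i)) (c₀ i) ≤ 0 := fun i => by
        have := w2 (b', i); have := q i; dsimp only at *; omega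
      refine .inr ⟨0, ?_, by omega, by omega, e, fun i => ?_⟩
      · rw [show (w ∘ fun i => (b', i)) = c₀ from
          funext fun i => hG.dist_eq_zero_iff.1 (Nat.le_zero.1 (e i))]
        exact b r' hr' o (by omega)
      · have := w2 (!b', i); have := s i; dsimp only at *; omega
  · by_cases hZ : lv r ≤ L₀
    · exact .inl (Ex.lift (inj b') (win t u _ r hr (by omega) p q (by omega)))
    rcases d u _ r hr p q with x | ⟨x, c', y, g⟩
    · exact .inl (Ex.lift (inj b') x)
    have e' : ∀ i, G.dist (c' i) (c₀ i) ≤ u + 1 := fun i => by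
      have := dist_near hG (c₀ i) (y i)
      have := e i
      rw [SimpleGraph.dist_comm] at this ⊢
      dsimp only [comp] at *
      omega
    refine .inr ⟨fun x => hZ (mem_filter.1 x).2, fun y => if y.1 = b' then c' y.2 else w y,
      fun ⟨b'', i⟩ => ?_, fun r' hr' hn => ?_⟩
    · dsimp only
      split_ifs with o
      · exact o ▸ y i
      · exact w1 _
    have l1 := lip _ hr _ hr' hn
    have l2 := lip _ hr' _ hr (nsymm hn)
    have nb : (!b') ≠ b' := by cases b' <;> decide
    by_cases o : lv r' ≤ L₁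
    · refine ⟨b', .inr ⟨u + 1, ?_, o, by omega, by simpa using e', fun i => ?_⟩⟩
      · simpa [comp_def] using g r' hr' hn o
      · have := w2 (!b', i); have := f i
        simp only [nb, if_false] at *
        omega
    · refine ⟨!b', .inl ⟨o1 r' hr' (by omega), fun i => ?_, fun i => ?_⟩⟩
      · have := w2 (!b', i); have := f i
        simp only [nb, if_false] at *
        omega
      · have := e' i
        simp only [Bool.not_not, if_true]
        omega

end Pool.Agent.MP_de21d3_co.H85
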