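import Pool.Agent.MP_de21d3_co.H6.Carve

/-!
Carving with a bound on the radius of the connected sets of complex points.
-/

set_option linter.unusedSectionVars false

namespace Pool.Agent.MP_de21d3_co.H85

open Finset Function H91 H6

variable {V : Type} [Fintype V] [DecidableEq V] {G : SimpleGraph V} {N W : Type} [Fintype N]
  [DecidableEq N] [Fintype W] [DecidableEq W] {K : Cx G N W}

lemma carveMain (hp : PsiS K) (hk : KillS K) {R : Finset V} {z : V} (T : Tr K R z) {Y : Finset W}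
    {s n e M μ : ℕ} (hY : K.Conn Y) (hR : R.map K.ι ⊆ Y) (hM : 7 ≤ M) (he : 0 < e)
    (hμ : μ ≤ M * 2 ^ (n / e)) (hb : ∀ x ∈ R, K.gv Y (ball G R x (s + n * (2 * s + 2))) ≤ μ)
    (Q : Finset V) : Q ⊆ R → ∀ S ⊆ Y, (∀ q ∈ Q, (ball G R q s).map K.ι ⊆ S) →
      ∃ A ⊆ R, e * A.card ≤ 60 * K.Psi S ∧ ∀ R' ⊆ R, (∀ v ∈ R', T.Free A v) → ∀ B ⊆ R', B ⊆ Q →
        Cn G B → (∀ x ∈ B, M < K.gv Y (ball G R' x s)) →
        ∃ q ∈ R, B ⊆ ball G R q (s + n * (2 * s + 2)) := by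
  have sub : ∀ B : Finset V, B ⊆ R → B.map K.ι ⊆ Y := fun B h => (map_subset_map.2 h).trans hR
  have mono : ∀ B B' : Finset V, B ⊆ R → B' ⊆ B → K.gv Y B' ≤ K.gv Y B := fun B B' h h' =>
    Cx.gv_mono hY (sub B h) h'
  induction Q using Finset.strongInduction with
  | H Q ih =>
  intro hQ S hS hQS
  by_cases hq : ∃ q ∈ Q, M < K.gv Y (ball G R q s)
  swap
  · refine ⟨∅, empty_subset _, by simp, fun R' hR' _ B _ hBQ _ hB => ?_⟩
    have : B = ∅ := eq_empty_of_forall_notMem fun x hx => hq ⟨x, hBQ hx,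
      (hB x hx).trans_le (mono _ _ ball_sub (ball_mono hR' le_rfl))⟩
    subst this
    exact ⟨z, T.hz, empty_subset _⟩
  obtain ⟨q, hq, hqM⟩ := hq
  obtain ⟨P, hP⟩ : ∃ P, P = Q.biUnion fun x => ball G R x s := ⟨_, rfl⟩
  have hPR : P ⊆ R := hP ▸ biUnion_subset.2 fun _ _ => ball_sub
  have hPS : P.map K.ι ⊆ S := fun y hy => by
    obtain ⟨v, hv, rfl⟩ := mem_map.1 hy
    obtain ⟨x, hx, hv⟩ := mem_biUnion.1 (hP ▸ hv)
    exact hQS x hx (mem_map_of_mem _ hv)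
  have hbP : ∀ x ∈ Q, ∀ v ∈ ball G R x s, Rch G P x s v := fun x hx v hv =>
    (mem_ball.1 hv).restrict (hP ▸ subset_biUnion_of_mem (fun x => ball G R x s) hx)
  have hQP : Q ⊆ P := fun x hx => (hbP x hx x (self_mem_ball (hQ hx))).left
  have bR : ∀ r, ball G P q r ⊆ R := fun r => ball_sub.trans hPR
  obtain ⟨g, hg⟩ : ∃ g : ℕ → ℕ, ∀ j, g j = K.gv Y (ball G P q (s + j * (2 * s + 2))) :=
    ⟨_, fun _ => rfl⟩
  have gm : Monotone g := fun i j h => by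
    rw [hg, hg]
    exact mono _ _ (bR _) (ball_mono Subset.rfl
      (Nat.add_le_add_left (Nat.mul_le_mul_right _ h) _))
  have g0 : M < g 0 := by
    rw [hg]
    exact hqM.trans_le (mono _ _ (bR _) fun v hv => mem_ball.2 ((hbP q hq v hv).le (by omega)))
  have gn : g n ≤ μ := by
    rw [hg]
    exact (mono _ _ ball_sub (ball_mono hPR le_rfl)).trans (hb q (hQ hq))
  obtain ⟨j, hj, hs⟩ := Carve.slow gm he hμ g0 gn
  obtain ⟨ρ, hρ⟩ : ∃ ρ, ρ = s + j * (2 * s + 2) := ⟨_, rfl⟩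
  have e0 : g j = K.gv Y (ball G P q ρ) := by rw [hg, hρ]
  have e1 : g (j + 1) = K.gv Y (ball G P q (ρ + (2 * s + 2))) := by
    rw [hg, hρ, Nat.succ_mul, Nat.add_assoc]
  have m0 : g 0 ≤ g j := gm (Nat.zero_le _)
  have m1 : g j ≤ g (j + 1) := gm (Nat.le_succ _)
  obtain ⟨Y₂, c2, s2, t2, p2⟩ := Cx.gv_spec hY (sub _ (bR (ρ + (2 * s + 2))))
  rw [← e1] at p2
  have ne : (ball G P q ρ).Nonempty := ⟨q, self_mem_ball (hQP hq)⟩
  have q2 : K.Psi Y₂ ≤ g (j + 1) - 4 := c2.Psi_le (by omega)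
  have h2 := hp Y Y₂ (ball G P q ρ) t2 cn_ball ne
    ((map_subset_map.2 (ball_mono Subset.rfl (Nat.le_add_right _ _))).trans s2)
  have h3 := hp Y S (ball G P q ρ) hS cn_ball ne ((map_subset_map.2 ball_sub).trans hPS)
  rw [← e0] at h2 h3
  obtain ⟨A₁, a1, k1, f1⟩ := hk R z T (Y₂ \ (ball G P q ρ).map K.ι)
  have far : ∀ x ∈ Q, x ∉ ball G P q (ρ + s) → ∀ v ∈ ball G R x s,
      K.ι v ∉ (ball G P q ρ).map K.ι := fun x hx h v hv h' =>
    h (mem_ball.2 ((mem_ball.1 (mem_map' K.ι |>.1 h')).trans (hbP x hx v hv).symm))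
  obtain ⟨A₂, a2, k2, f2⟩ := ih (Q \ ball G P q (ρ + s + 1))
    ((ssubset_iff_of_subset sdiff_subset).2
      ⟨q, hq, fun h => (mem_sdiff.1 h).2 (self_mem_ball (hQP hq))⟩)
    (sdiff_subset.trans hQ) (S \ (ball G P q ρ).map K.ι) (sdiff_subset.trans hS) fun x hx y hy => by
      obtain ⟨x1, x2⟩ := mem_sdiff.1 hx
      obtain ⟨v, hv, rfl⟩ := mem_map.1 hy
      exact mem_sdiff.2 ⟨hQS x x1 hy,
        far x x1 (fun h => x2 (ball_mono Subset.rfl (Nat.le_succ _) h)) v hv⟩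
  refine ⟨A₁ ∪ A₂, union_subset a1 a2, ?_, fun R' hR' hF B hB hBQ hC hx => ?_⟩
  · have u := Nat.mul_le_mul_left e (card_union_le A₁ A₂)
    have v := Nat.mul_le_mul_left e k1
    have w : e * (K.Psi (Y₂ \ (ball G P q ρ).map K.ι) + g j) ≤ e * g (j + 1) :=
      Nat.mul_le_mul_left e (by omega)
    have : 8 ≤ g j := by omega
    nlinarith
  have lev : ∀ x ∈ B, x ∈ ball G P q (ρ + s + 1) → x ∈ ball G P q (ρ + s) := fun x h1 h2 => by
    by_contra h3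
    obtain ⟨U, u1, u2, u3, u4⟩ := f1 (ball G R' x s) (ball_sub.trans hR') cn_ball
      (fun y hy => by
        obtain ⟨v, hv, rfl⟩ := mem_map.1 hy
        have hv' := ball_mono hR' le_rfl hv
        exact mem_sdiff.2 ⟨s2 (mem_map_of_mem _ (mem_ball.2
          (((mem_ball.1 h2).trans (hbP x (hBQ h1) v hv')).le (by omega)))),
          far x (hBQ h1) h3 v hv'⟩)
      fun v hv => (hF v (ball_sub hv)).mono subset_union_left
    have := Cx.gv_le (Y := Y) (n := 4) u1 u2 (u3.trans (sdiff_subset.trans t2)) (by omega)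
    have := hx x h1
    omega
  by_cases hB' : ∃ x ∈ B, x ∈ ball G P q (ρ + s + 1)
  · obtain ⟨x, x1, x2⟩ := hB'
    have : B ⊆ ball G R q (s + n * (2 * s + 2)) := fun v hv => by
      obtain ⟨k, hk⟩ := hC x x1 v hv
      have hv' : v ∈ ball G P q (ρ + s) := by
        clear hv
        induction hk with
        | zero _ => exact lev x x1 x2
        | succ _ a b ih => exact lev _ b (mem_ball.2 (.succ (mem_ball.1 ih) a (hQP (hBQ b))))
      have := Nat.mul_le_mul_right (2 * s + 2) (Nat.succ_le_of_lt hj)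
      rw [Nat.succ_mul] at this
      exact ball_mono hPR (by omega) hv'
    exact ⟨q, hQ hq, this⟩
  · exact f2 R' hR' (fun v hv => (hF v hv).mono subset_union_right) B hB
      (fun x h => mem_sdiff.2 ⟨hBQ h, fun h' => hB' ⟨x, h, h'⟩⟩) hC hx

theorem carve2 (hp : PsiS K) (hk : KillS K) {R : Finset V} {z : V} (T : Tr K R z) {Y : Finset W}
    {s n e M μ : ℕ} (hY : K.Conn Y) (hR : R.map K.ι ⊆ Y) (hM : 7 ≤ M) (he : 0 < e)
    (hμ : μ ≤ M * 2 ^ (n / e)) (hb : ∀ x ∈ R, K.gv Y (ball G R x (s + n * (2 * s + 2))) ≤ μ) :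
    ∃ A ⊆ R, e * A.card ≤ 60 * K.Psi Y ∧ ∀ R' ⊆ R, (∀ v ∈ R', T.Free A v) → ∀ B ⊆ R', Cn G B →
      (∀ x ∈ B, M < K.gv Y (ball G R' x s)) → ∃ q ∈ R, B ⊆ ball G R q (s + n * (2 * s + 2)) := by
  obtain ⟨A, a, b, c⟩ := carveMain hp hk T hY hR hM he hμ hb R Subset.rfl Y Subset.rfl
    fun _ _ => (map_subset_map.2 ball_sub).trans hR
  exact ⟨A, a, b, fun R' h f B hB => c R' h f B hB (hB.trans h)⟩

end Pool.Agent.MP_de21d3_co.H85
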