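import Pool.Agent.MP_de21d3_co.H85.Pair
import Pool.Agent.MP_aee211_co.H55.Std
import Pool.Agent.MP_de21d3_co.H91.Defs

/-!
From a drawing in a surface to an embedding scheme.
-/

namespace Pool.Agent.MP_de21d3_co.H85

open Module Pool.Agent.MP_aee211_co.H75 Pool.Agent.MP_aee211_co.H55 Function Finset

theorem exists_list {X Y : Type} [Finite X] [DecidableEq Y] (f : Equiv.Perm X) (x : X) (g : X → Y)
    (hg : ∀ y z, f.SameCycle x y → f.SameCycle x z → g y = g z → y = z) :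
    ∃ L : List Y, L.Nodup ∧ (∀ w, w ∈ L ↔ ∃ y, f.SameCycle x y ∧ g y = w) ∧
      ∀ y, f.SameCycle x y → L.formPerm (g y) = g (f y) := by
  have p : x ∈ periodicPts f := f.injective.mem_periodicPts x
  have n0 := minimalPeriod_pos_of_mem_periodicPts p
  have s : ∀ i : ℕ, f.SameCycle x (f^[i] x) := fun i => ⟨i, by rw [zpow_natCast, Equiv.Perm.coe_pow]⟩
  have t : ∀ y, f.SameCycle x y → ∃ i < minimalPeriod f x, f^[i] x = y := fun y h => by
    obtain ⟨i, -, rfl⟩ := h.exists_pow_eq'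
    exact ⟨i % _, Nat.mod_lt _ n0, by rw [iterate_mod_minimalPeriod_eq, Equiv.Perm.coe_pow]⟩
  have nd : ((List.range (minimalPeriod f x)).map fun i => g (f^[i] x)).Nodup :=
    List.nodup_range.map_on fun i hi j hj e => iterate_injOn_Iio_minimalPeriod
      (List.mem_range.1 hi) (List.mem_range.1 hj) (hg _ _ (s i) (s j) e)
  refine ⟨_, nd, fun w => ?_, fun y hy => ?_⟩
  · simp only [List.mem_map, List.mem_range]
    exact ⟨fun ⟨i, _, e⟩ => ⟨_, s i, e⟩, fun ⟨y, h, e⟩ => (t y h).imp fun i ⟨a, b⟩ => ⟨a, b ▸ e⟩⟩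
  · obtain ⟨i, hi, rfl⟩ := t y hy
    have := List.formPerm_apply_getElem _ nd i (by simpa using hi)
    simp only [List.getElem_map, List.getElem_range, List.length_map, List.length_range,
      iterate_mod_minimalPeriod_eq] at this
    rw [this, iterate_succ_apply']

variable {V : Type} [Fintype V] [DecidableEq V] {G : SimpleGraph V}

theorem Pr.scheme (A : Pr G)
    (h : ∀ x y, x.1.fst = y.1.fst → Quot.mk A.UR x = Quot.mk A.UR y) :
    ∃ σ : H91.Scheme G, Nat.card (Quot A.FR) ≤ σ.faces := by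
  classical
  let ρ : Equiv.Perm (G.Dart × Bool) := Involutive.toPerm s2 s2_s2 * A.inv.toPerm
  have ρ1 : ∀ z, ρ z = s2 (A.a z) := fun _ => rfl
  have ρ2 : ∀ z, ρ (A.a z) = s2 z := fun z => by rw [ρ1, A.inv]
  have k1 : ∀ (k : ℕ) z, (ρ ^ k) z ≠ s2 z := fun k => by
    induction k using Nat.twoStepInduction with
    | zero => exact fun z => (s2_ne z).symm
    | one => exact fun z e => A.ne z (Involutive.injective s2_s2 e)
    | more k ih _ =>
      refine fun z e => ih (ρ z) (ρ.injective ?_)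
      rw [show s2 (ρ z) = A.a z from s2_s2 _, ρ2, ← e, pow_succ, pow_succ']
      rfl
  have k2 : ∀ z, ¬ρ.SameCycle z (s2 z) := fun z e => by
    obtain ⟨k, -, e⟩ := e.exists_pow_eq'
    exact k1 k z e
  have k3 : ∀ x y, x.1.fst = y.1.fst → ρ.SameCycle x y ∨ ρ.SameCycle x (s2 y) := fun x y e => by
    have a1 : ∀ y, ρ.SameCycle x y ∨ ρ.SameCycle x (s2 y) →
        ρ.SameCycle x (A.a y) ∨ ρ.SameCycle x (s2 (A.a y)) := fun y e =>
      e.elim (fun e => .inr e.apply_right) fun e => .inl (by rwa [← ρ2, Equiv.Perm.sameCycle_apply_right] at e)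
    have := congrArg (Quot.lift (fun y => ρ.SameCycle x y ∨ ρ.SameCycle x (s2 y)) (by
      rintro z _ (rfl | rfl)
      · rw [s2_s2, or_comm]
      · exact propext ⟨a1 z, fun e => A.inv z ▸ a1 _ e⟩)) (h x y e)
    exact this.mp (.inl (Equiv.Perm.SameCycle.refl _ _))
  have k4 : ∀ x y, ρ.SameCycle x y → x.1.fst = y.1.fst := fun x y e => by
    obtain ⟨k, -, rfl⟩ := e.exists_pow_eq'
    clear e
    induction k with
    | zero => rfl
    | succ k ih => rw [pow_succ', Equiv.Perm.mul_apply, ρ1, ih]; exact (A.fst _).symm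
  have ex : ∀ u, ∃ (L : List V) (O : G.Dart × Bool → Prop), L.Nodup ∧ (∀ w, w ∈ L ↔ G.Adj u w) ∧
      (∀ y, y.1.fst = u → (O y ↔ ¬O (s2 y))) ∧
      ∀ y, y.1.fst = u → O y → O (ρ y) ∧ L.formPerm y.1.snd = (ρ y).1.snd := fun u => by
    by_cases e : ∃ x : G.Dart × Bool, x.1.fst = u
    · obtain ⟨x, rfl⟩ := e
      have a1 : ∀ y, ρ.SameCycle x y → ¬ρ.SameCycle x (s2 y) := fun y a b => k2 y (a.symm.trans b)
      obtain ⟨L, l1, l2, l3⟩ := exists_list ρ x (fun y => y.1.snd) fun y z a b e => by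
        have c : y.1 = z.1 := SimpleGraph.Dart.ext _ _
          (Prod.ext ((k4 _ _ a).symm.trans (k4 _ _ b)) e)
        refine Prod.ext c (by_contra fun d => a1 y a ?_)
        rwa [show s2 y = z from Prod.ext c (Bool.eq_not.2 (Ne.symm d)).symm]
      refine ⟨L, ρ.SameCycle x, l1, fun w => (l2 w).trans ⟨?_, fun e => ?_⟩, fun y e =>
        ⟨a1 y, (k3 x y e.symm).resolve_right⟩, fun y _ e => ⟨e.apply_right, l3 y e⟩⟩
      · rintro ⟨y, a, rfl⟩
        exact k4 _ _ a ▸ y.1.adj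
      · exact (k3 x (⟨(_, w), e⟩, true) rfl).elim (fun a => ⟨_, a, rfl⟩) fun a => ⟨_, a, rfl⟩
    · exact ⟨[], fun _ => True, List.nodup_nil, fun w => ⟨fun h => absurd h List.not_mem_nil,
        fun h => absurd ⟨(⟨(u, w), h⟩, true), rfl⟩ e⟩, fun y a => absurd ⟨y, a⟩ e,
        fun y a => absurd ⟨y, a⟩ e⟩
  choose L O l1 l2 l3 l4 using ex
  let o : V → V → Bool := fun u v => decide (∃ h : G.Adj u v, O u (⟨(u, v), h⟩, true))
  have o1 : ∀ d : G.Dart, O d.fst (d, o d.fst d.snd) := fun d => by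
    by_cases e : O d.fst (d, true)
    · rwa [show o d.fst d.snd = true from decide_eq_true ⟨d.adj, e⟩]
    · rw [show o d.fst d.snd = false from decide_eq_false fun ⟨_, a⟩ => e a]
      exact (l3 _ (d, false) rfl).2 e
  have o2 : ∀ y : G.Dart × Bool, O y.1.fst y → y.2 = o y.1.fst y.1.snd := fun ⟨d, b⟩ a =>
    by_contra fun e => (l3 _ _ rfl).1 a (by
      have := o1 d
      rwa [show o d.fst d.snd = !b from Bool.eq_not.2 (Ne.symm e)] at this)
  let σ : H91.Scheme G := ⟨L, l1, l2, Sym2.lift ⟨fun u v => o u v == o v u, fun _ _ => BEq.comm⟩⟩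
  let φ : H91.Flag G → G.Dart × Bool := fun p =>
    (⟨(p.1.1, p.1.2.1), p.2⟩, p.1.2.2 == o p.1.1 p.1.2.1)
  have : Finite (H91.Flag G) := Subtype.finite
  refine ⟨σ, Nat.card_le_card_of_surjective (Quot.lift (fun p => Quot.mk A.FR (φ p)) ?_) ?_⟩
  · rintro ⟨⟨u, v, b⟩, huv⟩ ⟨q, hq⟩ (e | ⟨e1, e⟩)
    · subst e
      refine Quot.sound (.inl (Prod.ext rfl ?_))
      simp only [φ, σ, s0, Sym2.lift_mk]
      cases b <;> cases o u v <;> cases o v u <;> rfl
    · subst e
      obtain rfl : b = true := e1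
      obtain ⟨a1, a2⟩ := l4 u (⟨(u, v), huv⟩, o u v) rfl (o1 ⟨(u, v), huv⟩)
      have a3 : (ρ (⟨(u, v), huv⟩, o u v)).1.fst = u := A.fst _
      have a4 := o2 _ (by rw [a3]; exact a1)
      rw [a3, ← a2] at a4
      refine Quot.sound (.inr ?_)
      rw [show φ ⟨(u, v, true), huv⟩ = (⟨(u, v), huv⟩, o u v) by simp [φ],
        ← s2_s2 (A.a _), ← ρ1]
      refine Prod.ext (SimpleGraph.Dart.ext _ _ (Prod.ext a3.symm a2)) ?_
      simp only [φ, s2, a4, σ]
      cases o u ((L u).formPerm v) <;> rfl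
  · rintro ⟨⟨⟨⟨u, v⟩, huv⟩, b⟩⟩
    refine ⟨Quot.mk _ ⟨(u, v, b == o u v), huv⟩, congrArg (Quot.mk _) (Prod.ext rfl ?_)⟩
    simp only [φ]
    cases b <;> cases o u v <;> rfl

theorem bridge {γ : ℕ} (hγ : 1 ≤ γ) (hG : G.Connected) {C : Cx γ} (h : Minor G C) :
    ∃ σ : H91.Scheme G, Nat.card G.edgeSet + 2 ≤ Nat.card V + σ.faces + 2 * γ := by
  classical
  obtain ⟨R, _, l, r, h1, h2⟩ := labels h
  obtain ⟨A, h3⟩ := Pr.start l r h1
  obtain ⟨B, h4, h5⟩ := A.final
  obtain ⟨σ, h6⟩ := B.scheme h4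
  have := hG.nonempty
  have h7 := ker_bd1 (G := G)
  have h8 := A.euler
  refine ⟨σ, ?_⟩
  rw [← Nat.card_eq_fintype_card] at h7 h8
  rw [← Nat.card_eq_fintype_card] at h7
  by_cases a : ∀ u, ∃ v, G.Adj u v
  · have := Nat.card_le_card_of_surjective (Quot.lift (r := B.UR) (fun x => x.1.fst) (by
      rintro x _ (rfl | rfl)
      exacts [rfl, (B.fst x).symm])) fun u =>
        (a u).elim fun v e => ⟨Quot.mk _ (⟨(u, v), e⟩, true), rfl⟩
    omega
  · push Not at a
    obtain ⟨u, hu⟩ := a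
    have : IsEmpty G.edgeSet := ⟨fun e => by
      obtain ⟨w⟩ := hG.preconnected u (dartOf e).fst
      generalize dartOf e = d at w
      obtain ⟨⟨x, y⟩, d⟩ := d
      cases w with
      | nil => exact hu _ d
      | cons x _ => exact hu _ x⟩
    have := Nat.card_pos (α := V)
    rw [Nat.card_of_isEmpty]
    omega

end Pool.Agent.MP_de21d3_co.H85
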