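import Pool.Agent.MP_de21d3_co.H85.Main2
import Pool.Agent.MP_de21d3_co.H85.Rot

/-!
The bound `C g exp (-c √(log g))` for graphs drawn in a surface.
-/

namespace Pool.Agent.MP_de21d3_co.H85

open Pool.Agent.MP_aee211_co.H55 H91

lemma real_form (A : ℕ) : ∃ c : ℝ, 0 < c ∧ ∃ C : ℝ, ∀ g : ℕ, 1 ≤ g → ∃ j : ℕ,
    ((4 * g / 2 ^ j + 2 ^ (A * (j + 1) ^ 2) : ℕ) : ℝ) ≤
      C * g * Real.exp (-c * √(Real.log g)) := by
  refine ⟨1 / (2 * (A + 1)), by positivity, (4 + 2 ^ A) * Real.exp 1, fun g hg => ?_⟩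
  have ex : ∃ j, g < 2 ^ (A * (j + 1) ^ 2 + j) :=
    ⟨g, Nat.lt_two_pow_self.trans_le (Nat.pow_le_pow_right (by norm_num) (by omega))⟩
  obtain ⟨j, h1, h2⟩ : ∃ j, 2 ^ (A * (j + 1) ^ 2) * 2 ^ j ≤ 2 ^ A * g ∧
      g < 2 ^ (A * (j + 2) ^ 2 + (j + 1)) := by
    have a := Nat.find_spec ex
    rcases e : Nat.find ex with _ | j
    · rw [e] at a
      refine ⟨0, by simpa using hg, a.trans_le (Nat.pow_le_pow_right (by norm_num) (by omega))⟩
    · rw [e] at a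
      have b := not_lt.1 (Nat.find_min ex (m := j) (by omega))
      exact ⟨j, by rw [← pow_add]; exact b.trans (Nat.le_mul_of_pos_left _ (by positivity)), a⟩
  refine ⟨j, ?_⟩
  have g0 : (0 : ℝ) < g := by exact_mod_cast hg
  have j0 : (0 : ℝ) < 2 ^ j := by positivity
  have a1 : ((4 * g / 2 ^ j + 2 ^ (A * (j + 1) ^ 2) : ℕ) : ℝ) ≤ (4 + 2 ^ A) * g / 2 ^ j := by
    have b1 : ((4 * g / 2 ^ j : ℕ) : ℝ) ≤ 4 * g / 2 ^ j := by exact_mod_cast Nat.cast_div_le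
    have b2 : (2 : ℝ) ^ (A * (j + 1) ^ 2) ≤ 2 ^ A * g / 2 ^ j := by
      rw [le_div_iff₀ j0]
      exact_mod_cast h1
    rw [Nat.cast_add, add_mul, add_div]
    exact add_le_add b1 (by exact_mod_cast b2)
  have a2 : √(Real.log g) ≤ (A + 1) * (j + 2) := by
    refine Real.sqrt_le_iff.2 ⟨by positivity, ?_⟩
    have b1 : Real.log g ≤ Real.log (2 ^ (A * (j + 2) ^ 2 + (j + 1))) :=
      Real.log_le_log g0 (by exact_mod_cast h2.le)
    have b2 : Real.log 2 ≤ 1 := by linarith [Real.log_le_sub_one_of_pos (show (0 : ℝ) < 2 by norm_num)]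
    have b3 : A * (j + 2) ^ 2 + (j + 1) ≤ ((A + 1) * (j + 2)) ^ 2 := by
      nlinarith [Nat.zero_le (A * (j + 2) ^ 2), Nat.zero_le (A * A * (j + 2) ^ 2)]
    rw [Real.log_pow] at b1
    exact b1.trans ((mul_le_of_le_one_right (by positivity) b2).trans (by exact_mod_cast b3))
  have a3 : Real.exp (1 / 2) ≤ 2 := by
    have := Real.exp_one_lt_three
    have b : Real.exp (1 / 2) * Real.exp (1 / 2) = Real.exp 1 := by rw [← Real.exp_add]; norm_num
    nlinarith [Real.exp_pos (1 / 2)]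
  have a4 : 1 / 2 ^ j ≤ Real.exp 1 * Real.exp (-(1 / (2 * (A + 1))) * √(Real.log g)) := by
    rw [← Real.exp_add, div_le_iff₀ j0]
    have b1 := pow_le_pow_left₀ (Real.exp_pos _).le a3 j
    rw [← Real.exp_nat_mul] at b1
    refine le_trans ?_ (mul_le_mul_of_nonneg_left b1 (Real.exp_pos _).le)
    rw [← Real.exp_add]
    refine Real.one_le_exp ?_
    have b2 : 1 / (2 * ((A : ℝ) + 1)) * √(Real.log g) ≤ 1 / (2 * (A + 1)) * ((A + 1) * (j + 2)) := by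
      gcongr
    rw [show 1 / (2 * ((A : ℝ) + 1)) * ((A + 1) * (j + 2)) = (j + 2) / 2 by field_simp] at b2
    linarith
  calc _ ≤ _ := a1
    _ = (4 + 2 ^ A) * g * (1 / 2 ^ j) := by ring
    _ ≤ (4 + 2 ^ A) * g * (Real.exp 1 * Real.exp (-(1 / (2 * (A + 1))) * √(Real.log g))) := by
      gcongr
    _ = _ := by ring

theorem rate : ∃ c : ℝ, 0 < c ∧ ∃ C : ℝ, ∀ g : ℕ, 1 ≤ g → ∀ (V : Type) [Finite V]
    (G : SimpleGraph V), G.Connected →
      Embeds G (Surf (wordN g)) ∨ Embeds G (Surf (wordS g)) →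
        ∃ k : ℕ, (k : ℝ) ≤ C * g * Real.exp (-c * √(Real.log g)) ∧ CopsWin G k := by
  obtain ⟨c, hc, C, h⟩ := real_form 1200000
  refine ⟨c, hc, C, fun g hg V _ G hG e => ?_⟩
  classical
  have := Fintype.ofFinite V
  obtain ⟨j, hj⟩ := h g hg
  obtain ⟨σ, hσ⟩ : ∃ σ : Scheme G, Nat.card G.edgeSet + 2 ≤ Nat.card V + σ.faces + 4 * g := by
    rcases e with e | e
    · obtain ⟨H, m⟩ := top (fine_N g hg) e
      exact (bridge hg hG m).imp fun _ _ => by omega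
    · obtain ⟨H, m⟩ := top (fine_S g) e
      exact (bridge (by omega) hG m).imp fun _ _ => by omega
  obtain ⟨k, h1, h2⟩ := top2 j V G hG σ _ hσ
  exact ⟨k, (Nat.cast_le.2 h1).trans hj, h2⟩

end Pool.Agent.MP_de21d3_co.H85
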