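import Pool.Agent.MP_aee211_co.H55.Draw

/-!
Labels on the two sides of every edge of a graph drawn in a surface.
-/

namespace Pool.Agent.MP_de21d3_co.H85

open Module Pool.Agent.MP_aee211_co.H75 Pool.Agent.MP_aee211_co.H55
open scoped Classical

variable {V : Type} [Fintype V] {G : SimpleGraph V}

theorem bd1_e (z : G.edgeSet → F2) (w : V) : bd1 G z w = ∑ e, z e *
    ((if (dartOf e).fst = w then 1 else 0) + (if (dartOf e).snd = w then 1 else 0)) := by
  rw [← pair_bd1 (fun v => if v = w then 1 else 0) z]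
  simp

theorem labels {γ : ℕ} {C : Cx γ} (h : Minor G C) : ∃ (R : Type) (_ : Fintype R)
    (l r : G.edgeSet → R), (∀ c, bd1 G (sidesL l r c) = 0) ∧
      finrank F2 (LinearMap.ker (bd1 G)) ≤ finrank F2 (LinearMap.range (sidesL l r)) + γ := by
  obtain ⟨B, hd', hc, hP⟩ := h
  have hd : ∀ z z' w, w ∈ B z → w ∈ B z' → z = z' := fun z z' w a b =>
    by_contra fun e => Set.disjoint_left.1 (hd' z z' e) a b
  have hk : ∀ q : G.edgeSet, ∃ (e : C.E) (u v : C.W), u ∈ B (dartOf q).fst ∧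
      v ∈ B (dartOf q).snd ∧ ((C.s e = u ∧ C.t e = v) ∨ (C.s e = v ∧ C.t e = u)) := fun q => by
    obtain ⟨u, hu, v, hv, e, he⟩ := hP _ _ (dartOf q).adj
    exact ⟨e, u, v, hu, hv, he⟩
  choose ke ku kv hu hv hke using hk
  have hf : ∀ q (f : C.W → F2), f (C.s (ke q)) + f (C.t (ke q)) = f (ku q) + f (kv q) := by
    intro q f
    rcases hke q with ⟨h1, h2⟩ | ⟨h1, h2⟩ <;> rw [h1, h2]
    exact add_comm _ _
  have hinj : Function.Injective ke := by
    intro q q' h
    have a := hke q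
    rw [h] at a
    rw [← eOf_dartOf q, ← eOf_dartOf q', eOf_eq_iff]
    rcases a with ⟨a1, a2⟩ | ⟨a1, a2⟩ <;> rcases hke q' with ⟨b1, b2⟩ | ⟨b1, b2⟩
    · exact .inl (SimpleGraph.Dart.ext _ _ (Prod.ext (hd _ _ _ (hu q) (a1 ▸ b1 ▸ hu q'))
        (hd _ _ _ (hv q) (a2 ▸ b2 ▸ hv q'))))
    · exact .inr (SimpleGraph.Dart.ext _ _ (Prod.ext (hd _ _ _ (hu q) (a1 ▸ b1 ▸ hv q'))
        (hd _ _ _ (hv q) (a2 ▸ b2 ▸ hu q'))))
    · exact .inr (SimpleGraph.Dart.ext _ _ (Prod.ext (hd _ _ _ (hu q) (a2 ▸ b2 ▸ hv q'))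
        (hd _ _ _ (hv q) (a1 ▸ b1 ▸ hu q'))))
    · exact .inl (SimpleGraph.Dart.ext _ _ (Prod.ext (hd _ _ _ (hu q) (a2 ▸ b2 ▸ hu q'))
        (hd _ _ _ (hv q) (a1 ▸ b1 ▸ hv q'))))
  set I : Set C.E := {e | ∃ z, C.s e ∈ B z ∧ C.t e ∈ B z} with hI
  have hkI : ∀ q, ke q ∉ I := by
    rintro q ⟨z, h1, h2⟩
    apply (dartOf q).adj.ne
    rcases hke q with ⟨a1, a2⟩ | ⟨a1, a2⟩
    · exact (hd _ _ _ (hu q) (a1 ▸ h1)).trans (hd _ _ _ (a2 ▸ h2) (hv q))
    · exact (hd _ _ _ (hu q) (a2 ▸ h2)).trans (hd _ _ _ (a1 ▸ h1) (hv q))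
  set U : Set C.E := I ∪ Set.range ke with hU
  set p : (C.E → F2) →ₗ[F2] (G.edgeSet → F2) := LinearMap.funLeft F2 F2 ke with hp
  have hpa : ∀ z q, p z q = z (ke q) := fun z q => rfl
  have ind : ∀ z z', ∀ w ∈ B z,
      (if w ∈ B z' then (1 : F2) else 0) = if z = z' then 1 else 0 := fun z z' w hw =>
    if_congr ⟨hd z z' w hw, fun h => h ▸ hw⟩ rfl rfl
  have key2 : ∀ z, C.bd z = 0 → z ∈ C.sp U → bd1 G (p z) = 0 := by
    intro z hz hzU
    funext w
    have h1 := congrFun hz fun v => if v ∈ B w then 1 else 0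
    rw [bd1_e, Pi.zero_apply]
    refine Eq.trans ?_ h1
    refine Fintype.sum_of_injective ke hinj _ _ ?_ ?_
    · intro e he
      beta_reduce
      by_cases heI : e ∈ I
      · obtain ⟨z', a1, a2⟩ := heI
        rw [ind z' w _ a1, ind z' w _ a2, F2_add_self, mul_zero]
      · rw [hzU e (by rintro (h | h); exacts [heI h, he h]), zero_mul]
    · intro q
      beta_reduce
      rw [hpa, hf q fun v => if v ∈ B w then 1 else 0, ind _ _ _ (hu q), ind _ _ _ (hv q)]
  have key1 : LinearMap.ker (bd1 G) ≤ (LinearMap.ker C.bd ⊓ C.sp U).map p := by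
    intro a ha
    rw [LinearMap.mem_ker] at ha
    have hβ : ∀ z : V, ∃ b : Option C.W, ∀ u ∈ B z, ∃ v ∈ B z, b = some v := fun z => by
      by_cases h : ∃ u, u ∈ B z
      · obtain ⟨u, hu⟩ := h
        exact ⟨some u, fun _ _ => ⟨u, hu, rfl⟩⟩
      · exact ⟨none, fun u hu => absurd ⟨u, hu⟩ h⟩
    choose β hβ using hβ
    have hpath : ∀ z, ∀ u ∈ B z,
        (fun f : C.W → F2 => f u + (β z).elim 0 f) ∈ (C.sp I).map C.bd := by
      intro z u hu
      obtain ⟨v, hv, e⟩ := hβ z u hu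
      rw [e]
      exact C.path (B z) I (fun e h1 h2 => ⟨z, h1, h2⟩) (hc z u hu v hv)
    set z0 : C.E → F2 := ∑ q, a q • Pi.single (ke q) 1 with hz0
    have hmem : C.bd z0 ∈ (C.sp I).map C.bd := by
      have h1 : C.bd z0 = ∑ q, a q •
          ((fun f : C.W → F2 => f (ku q) + (β (dartOf q).fst).elim 0 f) +
            fun f : C.W → F2 => f (kv q) + (β (dartOf q).snd).elim 0 f) := by
        funext f
        have h1 := pair_bd1 (fun w => (β w).elim 0 f) a
        simp only [ha, Pi.zero_apply, mul_zero, Finset.sum_const_zero] at h1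
        rw [hz0, map_sum, Finset.sum_apply, Finset.sum_apply]
        refine (add_zero _).symm.trans ((congrArg (_ + ·) h1).trans ?_)
        rw [← Finset.sum_add_distrib]
        refine Finset.sum_congr rfl fun q _ => ?_
        simp only [map_smul, Pi.smul_apply, Pi.add_apply, smul_eq_mul, Cx.bd_single, hf]
        ring
      rw [h1]
      exact Submodule.sum_mem _ fun q _ => Submodule.smul_mem _ _
        (Submodule.add_mem _ (hpath _ _ (hu q)) (hpath _ _ (hv q)))
    obtain ⟨zI, hzI, hzI'⟩ := hmem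
    refine ⟨z0 + zI, ⟨?_, ?_⟩, ?_⟩
    · show C.bd (z0 + zI) = 0
      rw [map_add, hzI', fun_add_self]
    · refine Submodule.add_mem _ (Submodule.sum_mem _ fun q _ => Submodule.smul_mem _ _ ?_) ?_
      · exact fun e he => Pi.single_eq_of_ne (by rintro rfl; exact he (Or.inr ⟨q, rfl⟩)) _
      · exact fun e he => hzI e fun h => he (Or.inl h)
    · funext q
      rw [hpa, Pi.add_apply, hzI _ (hkI q), add_zero, hz0, Finset.sum_apply,
        Finset.sum_eq_single q]
      · simp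
      · intro q' _ hq'
        rw [Pi.smul_apply, Pi.single_eq_of_ne (fun h => hq' (hinj h).symm), smul_zero]
      · simp
  set RR : C.R → C.R → Prop := fun x y => C.rel x y ∨ ∃ e, e ∉ U ∧ x = C.l e ∧ y = C.r e with hRR
  have : Fintype (Quot RR) := Fintype.ofFinite _
  refine ⟨Quot RR, this, fun q => Quot.mk RR (C.l (ke q)), fun q => Quot.mk RR (C.r (ke q)),
    fun c => ?_, ?_⟩
  · exact key2 (fun e => c (Quot.mk RR (C.l e)) + c (Quot.mk RR (C.r e)))
      (funext (C.cyc (fun x => c (Quot.mk RR x)) fun x y h => congrArg c (Quot.sound (Or.inl h))))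
      fun e he => by
        beta_reduce
        rw [show Quot.mk RR (C.l e) = Quot.mk RR (C.r e) from Quot.sound (Or.inr ⟨e, he, rfl, rfl⟩),
          F2_add_self]
  set sL := sidesL (fun q => Quot.mk RR (C.l (ke q))) (fun q => Quot.mk RR (C.r (ke q)))
    with hsL
  have key3 : (LinearMap.ker C.lam ⊓ (LinearMap.ker C.bd ⊓ C.sp U)).map p ≤ LinearMap.range sL := by
    rintro _ ⟨z, ⟨h1, h2, hzU⟩, rfl⟩
    obtain ⟨c, c1, c2⟩ := C.coh z (congrFun h2) h1
    refine ⟨Quot.lift c ?_, funext fun q => (c2 _).symm⟩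
    rintro x y (h | ⟨e, he, rfl, rfl⟩)
    · exact c1 x y h
    · exact F2_eq_of_add ((c2 e).symm.trans (hzU e he))
  have h2 := Submodule.finrank_mono key1
  have h4 := Submodule.finrank_mono key3
  have h5 := finrank_map_inf p (LinearMap.ker C.lam) ⊤ (LinearMap.ker C.bd ⊓ C.sp U) le_top le_top
  have h6 := LinearMap.finrank_range_add_finrank_ker C.lam
  have h7 := Submodule.finrank_le (LinearMap.range C.lam)
  rw [finrank_top] at h5
  rw [finrank_fintype_fun_eq_card] at h7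
  have h8 := C.card
  omega

theorem ker_bd1 [Nonempty V] :
    Fintype.card G.edgeSet + 1 ≤ finrank F2 (LinearMap.ker (bd1 G)) + Fintype.card V := by
  have h1 := LinearMap.finrank_range_add_finrank_ker (bd1 G)
  rw [Module.finrank_fintype_fun_eq_card] at h1
  have h2 : LinearMap.range (bd1 G) ≤ LinearMap.ker (sumL V) := by
    rintro _ ⟨a, rfl⟩
    rw [LinearMap.mem_ker, sumL_apply]
    have := pair_bd1 (fun _ => 1) a
    simpa only [one_mul, F2_add_self, mul_zero, Finset.sum_const_zero] using this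
  have h3 := Submodule.finrank_mono h2
  have h4 := finrank_ker_sumL_le V
  omega

end Pool.Agent.MP_de21d3_co.H85
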