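import Pool.Agent.MP_de21d3_co.H6.Light

/-!
A team that starts at a light point, on a tree of unbounded height: it wins within a bounded
time unless the robber climbs above a fixed level.
-/

set_option linter.unusedSectionVars false

namespace Pool.Agent.MP_de21d3_co.H85

open Finset Function H91 H6

/-- A timed team: started at home when the robber is at a point of `Tg`, it wins or moves on,
for at most `t` rounds, as long as the level `lv` of the robber stays at most `L`. -/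
def TT {V : Type} (G : SimpleGraph V) (k : ℕ) (R : Finset V) (Tg : V → Prop) (lv : V → ℕ)
    (L t : ℕ) : Prop :=
  ∃ (ι : Type) (_ : Fintype ι) (c₀ : ι → V) (Pl : ℕ → (ι → V) → V → Prop), Fintype.card ι ≤ k ∧
    (∀ x ∈ R, Tg x → lv x ≤ L → Pl 0 c₀ x) ∧ ∀ u c, ∀ r ∈ R, Pl u c r → lv r ≤ L → Ex G R c r ∨
      (u < t ∧ ∃ c' : ι → V, (∀ i, near G (c i) (c' i)) ∧
        ∀ r' ∈ R, near G r r' → lv r' ≤ L → Pl (u + 1) c' r')

namespace L2

open Light (chase chase_spec PI div_spec mem_pcs)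

variable {V : Type} [Fintype V] [DecidableEq V] {G : SimpleGraph V} {R₀ : Finset V} {z : V}
  {T : Bf G R₀ z} {Λ : Type} [Fintype Λ] {n : ℕ}

/-- The data given by the batches. -/
structure Dat (C : Cells T Λ n) (ι : Type) where
  τ : ℕ
  D : ℕ
  k : ℕ
  ρ : ℕ → ℕ
  Cs : ℕ → Finset Λ
  S : ℕ → Finset (Λ × V × ℕ)
  g : ℕ → Λ × V × ℕ → Option ι
  hτ : 0 < τ
  hρ : ∀ i < k, ρ i + τ ≤ ρ (i + 1) ∧ 4 * ρ (i + 1) + 3 * τ ≤ 5 * ρ i
  last : S k = ∅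
  sub : ∀ i, S i ⊆ C.pcs D
  inj : ∀ i p i' p' x, g i p = some x → g i' p' = some x → i = i' ∧ p = p'
  nxt : ∀ i < k, ∀ p ∈ S i, ∀ p' ∈ C.pcs D,
    G.dist (T.wl p'.2.1 (p'.2.2 * τ)) (T.wl p.2.1 (p.2.2 * τ)) ≤ ρ i → p'.1 ∈ Cs (i + 1)

variable {C : Cells T Λ n} {ι : Type} (d : Dat C ι)

/-- The invariant of the cops at time `u`. -/
def Dat.CI (u : ℕ) (c : ι ⊕ Fin 30 → V) (l : ℕ) : Prop := ∃ pos : ℕ → ℕ → ℕ,
  (∀ i, u ≤ 2 * d.ρ i → pos i = fun j => j * d.τ) ∧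
  (∀ i, 2 * d.ρ i ≤ u → PI d.D d.τ l (u - 2 * d.ρ i) (pos i)) ∧
  ∀ i ≤ d.k, ∀ p ∈ C.pcs d.D, p.1 ∈ d.Cs i → p ∉ d.S i → ∃ x, d.g i p = some x ∧
    (u ≤ 2 * d.ρ i → G.dist (c (.inl x)) (T.wl p.2.1 (p.2.2 * d.τ)) + u ≤ 2 * d.ρ i) ∧
    (2 * d.ρ i ≤ u → c (.inl x) = T.wl p.2.1 (pos i p.2.2))

variable {d}

lemma Dat.CI.step (hG : G.Connected) {u l : ℕ} {c : ι ⊕ Fin 30 → V} (h : d.CI u c l) :
    ∃ c' : ι ⊕ Fin 30 → V, (∀ y, near G (c y) (c' y)) ∧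
      ∀ l', l' ≤ l + 1 → l ≤ l' + 1 → l' + 2 * d.τ ≤ d.D * d.τ → d.CI (u + 1) c' l' := by
  obtain ⟨pos, h1, h2, h3⟩ := h
  have key : ∀ y, ∃ w, near G (c y) w ∧ ∀ i ≤ d.k, ∀ p ∈ C.pcs d.D, p.1 ∈ d.Cs i → p ∉ d.S i →
      ∀ x, d.g i p = some x → y = .inl x →
      (u < 2 * d.ρ i → G.dist w (T.wl p.2.1 (p.2.2 * d.τ)) + (u + 1) ≤ 2 * d.ρ i) ∧
      (2 * d.ρ i ≤ u → w = T.wl p.2.1 (chase (pos i p.2.2) l)) := fun y => by
    by_cases e : ∃ i ≤ d.k, ∃ p ∈ C.pcs d.D, p.1 ∈ d.Cs i ∧ p ∉ d.S i ∧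
      ∃ x, d.g i p = some x ∧ y = .inl x
    · obtain ⟨i, hi, p, hp, a, b, x, hx, rfl⟩ := e
      obtain ⟨x', hx', f1, f2⟩ := h3 i hi p hp a b
      obtain rfl : x = x' := Option.some.inj (hx.symm.trans hx')
      rcases lt_or_ge u (2 * d.ρ i) with hu | hu
      · obtain ⟨w, w1, w2⟩ := toward hG (c (.inl x)) (T.wl p.2.1 (p.2.2 * d.τ))
        refine ⟨w, w1, fun i' _ p' _ _ _ x' hx' e => ?_⟩
        obtain rfl := Sum.inl.inj e
        obtain ⟨rfl, rfl⟩ := d.inj _ _ _ _ _ hx hx'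
        have := f1 hu.le
        exact ⟨fun _ => by omega, fun _ => by omega⟩
      · refine ⟨T.wl p.2.1 (chase (pos i p.2.2) l), ?_, fun i' _ p' _ _ _ x' hx' e => ?_⟩
        · have := chase_spec (pos i p.2.2) l
          rw [f2 hu]
          exact T.near_wl (C.sub _ (mem_pcs.1 hp).2) (by omega) (by omega)
        · obtain rfl := Sum.inl.inj e
          obtain ⟨rfl, rfl⟩ := d.inj _ _ _ _ _ hx hx'
          exact ⟨fun _ => by omega, fun _ => rfl⟩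
    · exact ⟨c y, nrefl _, fun i hi p hp a b x hx e' => absurd ⟨i, hi, p, hp, a, b, x, hx, e'⟩ e⟩
  choose c' k1 k2 using key
  refine ⟨c', k1, fun l' a b e => ⟨fun i => if u < 2 * d.ρ i then pos i else
    fun j => chase (pos i j) l, fun i hi => ?_, fun i hi => ?_, fun i hi p hp x y => ?_⟩⟩
  · simp only [if_pos (show u < 2 * d.ρ i by omega)]
    exact h1 i (by omega)
  · by_cases hu : u < 2 * d.ρ i
    · simp only [if_pos hu]
      rw [h1 i hu.le, show u + 1 - 2 * d.ρ i = 0 by omega]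
      exact PI.start d.hτ e
    · simp only [if_neg hu]
      rw [show u + 1 - 2 * d.ρ i = u - 2 * d.ρ i + 1 by omega]
      exact (h2 i (by omega)).step a b
  · obtain ⟨w, hw, -⟩ := h3 i hi p hp x y
    obtain ⟨f1, f2⟩ := k2 _ i hi p hp x y w hw rfl
    refine ⟨w, hw, fun hu => f1 (by omega), fun hu => ?_⟩
    by_cases hu' : u < 2 * d.ρ i
    · simp only [if_pos hu', h1 i hu'.le]
      have := f1 hu'
      exact hG.dist_eq_zero_iff.1 (by omega)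
    · simp only [if_neg hu']
      exact f2 (by omega)

lemma Dat.CI.wall {u l i : ℕ} {c : ι ⊕ Fin 30 → V} (h : d.CI u c l) (hi : i ≤ d.k)
    (hu : 2 * d.ρ i + d.τ ≤ u) {Δ : Λ} (hΔ : Δ ∈ d.Cs i) {a : V} (ha : a ∈ C.X Δ) :
    (∃ x j, d.g i (Δ, a, j) = some x ∧ T.Sync a (c (.inl x)) l) ∨
    ∃ j, (Δ, a, j) ∈ d.S i ∧ j * d.τ + 2 * d.ρ i ≤ l + u + d.τ ∧
      l + 2 * d.ρ i ≤ j * d.τ + u + d.τ := by
  obtain ⟨pos, -, h2, h3⟩ := h
  obtain ⟨j, a1, a2, a3, a4⟩ := h2 i (by omega)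
  by_cases e1 : (Δ, a, j) ∈ d.S i
  · exact Or.inr ⟨j, e1, by omega, by omega⟩
  by_cases e2 : (Δ, a, j + 1) ∈ d.S i
  · exact Or.inr ⟨j + 1, e2, by rw [add_mul]; omega, by rw [add_mul]; omega⟩
  obtain ⟨x1, b1, -, c1⟩ := h3 i hi (Δ, a, j) (mem_pcs.2 ⟨by simp only; omega, ha⟩) hΔ e1
  obtain ⟨x2, b2, -, c2⟩ := h3 i hi (Δ, a, j + 1) (mem_pcs.2 ⟨a1, ha⟩) hΔ e2
  left
  rcases a4 with a4 | a4 | a4
  · exact ⟨x1, j, b1, _, c1 (by omega), a4.1, a4.2⟩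
  · exact ⟨x2, j + 1, b2, _, c2 (by omega), a4.1, a4.2⟩
  · exact ⟨x1, j, b1, _, c1 (by omega), by simp only; omega, by simp only; omega⟩

/-- A robber on a wall of a cell of stage `i` is caught or close to an unmatched piece. -/
lemma Dat.CI.on (hG : G.Connected) {u i : ℕ} {c : ι ⊕ Fin 30 → V} {r : V} (h : d.CI u c (T.lv r))
    (hi : i ≤ d.k) (hu : 2 * d.ρ i + d.τ ≤ u) {Δ : Λ} (hΔ : Δ ∈ d.Cs i) (hr : ¬T.Free (C.X Δ) r)
    (hc : ¬∃ y, near G (c y) r) :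
    ∃ p ∈ d.S i, G.dist (T.wl p.2.1 (p.2.2 * d.τ)) r + 2 * d.ρ i ≤ u + d.τ := by
  simp only [Bf.Free, not_forall, not_not] at hr
  obtain ⟨a, ha, t, e⟩ := hr
  have ha' := C.sub _ ha
  rcases h.wall hi hu hΔ ha with ⟨x, j, -, b⟩ | ⟨j, b1, b2, b3⟩
  · exact absurd ⟨_, b.near ha' e⟩ hc
  · refine ⟨_, b1, ?_⟩
    have := T.dist_wl hG ha' (s := j * d.τ) (t := T.lv r) (d := u + d.τ - 2 * d.ρ i)
      (by omega) (by omega)
    have e' : T.wl a (T.lv r) = r := by rw [← e, T.wl_lv ha']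
    rw [e'] at this
    simp only
    omega

variable (d)

lemma Dat.piece (hG : G.Connected) {Δ : Λ} {w : V} (hw : ¬T.Free (C.X Δ) w)
    (hl : T.lv w + 2 * d.τ ≤ d.D * d.τ) :
    ∃ p ∈ C.pcs d.D, p.1 = Δ ∧ (∃ t, p.2.2 * d.τ ≤ t ∧ t < (p.2.2 + 1) * d.τ ∧ T.wl p.2.1 t = w) ∧
      G.dist (T.wl p.2.1 (p.2.2 * d.τ)) w + 1 ≤ d.τ := by
  simp only [Bf.Free, not_forall, not_not] at hw
  obtain ⟨a, ha, t, e⟩ := hw
  have ha' := C.sub _ ha
  obtain ⟨b1, b2, b3⟩ := div_spec d.hτ hl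
  have e' : T.wl a (T.lv w) = w := by rw [← e, T.wl_lv ha']
  have hτ := d.hτ
  refine ⟨(Δ, a, T.lv w / d.τ), mem_pcs.2 ⟨by simp only; omega, ha⟩, rfl,
    ⟨T.lv w, b2, by rw [add_mul]; simp only; omega, e'⟩, ?_⟩
  have := T.dist_wl hG ha' (s := T.lv w / d.τ * d.τ) (t := T.lv w) (d := d.τ - 1)
    (by omega) (by omega)
  rw [e'] at this
  simp only
  omega

lemma Dat.mono {s : ℕ} (hs : s ≤ d.k) : d.ρ s ≤ d.ρ d.k := by
  have : ∀ m, s + m ≤ d.k → d.ρ s ≤ d.ρ (s + m) := fun m => by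
    induction m with
    | zero => exact fun _ => le_rfl
    | succ m ih =>
      intro hm
      have := (d.hρ (s + m) (by omega)).1
      have := ih (by omega)
      rw [← add_assoc]
      omega
  have h := this (d.k - s) (by omega)
  rwa [Nat.add_sub_cancel' hs] at h

/-- The invariant of the robber in stage `s`. -/
def Dat.RI (R : Finset V) (x : V) (s u : ℕ) (r : V) : Prop := s ≤ d.k ∧ C.cl r ∈ d.Cs s ∧
  (s = 0 → r ∈ ball G R x u) ∧ ∀ i, s = i + 1 → 2 * d.ρ i + d.τ ≤ u ∧ (C.cl r ∈ d.Cs i ∨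
    ∃ p ∈ d.S i, G.dist (T.wl p.2.1 (p.2.2 * d.τ)) r + 4 * d.ρ i ≤ 2 * u)

variable {d} {R : Finset V} {x : V}

lemma norm [Fintype ι] (hR : R ⊆ R₀) {s u : ℕ} {c : ι ⊕ Fin 30 → V} {r : V} (hr : r ∈ R)
    (h : d.CI u c (T.lv r)) (h' : d.RI R x s u r) (hu : u ≤ 2 * d.ρ s + d.τ) :
    Ex G R c r ∨ ∃ s, d.RI R x s u r ∧ u < 2 * d.ρ s + d.τ := by
  classical
  rcases hu.lt_or_eq with hu | hu
  · exact Or.inr ⟨s, h', hu⟩
  by_cases e : ∃ a j, (C.cl r, a, j) ∈ d.S s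
  · obtain ⟨a, j, e⟩ := e
    have hs : s < d.k := h'.1.lt_of_ne fun e' => by simp [e', d.last] at e
    have := (d.hρ s hs).1
    have := d.hτ
    refine Or.inr ⟨s + 1, ⟨hs, d.nxt s hs _ e _ (d.sub _ e) (by simp), by omega, fun i hi => ?_⟩,
      by omega⟩
    obtain rfl : s = i := by omega
    exact ⟨hu.ge, Or.inl h'.2.1⟩
  · have : ∀ a ∈ C.X (C.cl r), ∃ y j, d.g s (C.cl r, a, j) = some y ∧ T.Sync a (c (.inl y)) (T.lv r) :=
      fun a ha => (h.wall h'.1 hu.ge h'.2.1 ha).resolve_right fun ⟨j, b, _⟩ => e ⟨a, j, b⟩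
    choose f jj f1 f2 using this
    refine Or.inl ((C.cap r (hR hr) (ι ⊕ Fin 30) (by simp) c
      ⟨fun a => if ha : a ∈ C.X (C.cl r) then .inl (f a ha) else .inr 0,
        fun a ha b hb e' => ?_, fun a ha => ?_⟩).mono hR)
    · have ha' : a ∈ C.X (C.cl r) := ha
      have hb' : b ∈ C.X (C.cl r) := hb
      simp only [dif_pos ha', dif_pos hb', Sum.inl.injEq] at e'
      have := (d.inj _ _ _ _ _ (f1 a ha') (e' ▸ f1 b hb')).2
      simp only [Prod.mk.injEq] at this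
      exact this.2.1
    · simp only [dif_pos ha]
      exact f2 a ha

lemma RI_step (hG : G.Connected) (hR : R ⊆ R₀)
    (h0 : ∀ p ∈ C.tch d.D d.τ (ball G R x (2 * d.ρ 0 + d.τ)), p.1 ∈ d.Cs 0) {s u : ℕ}
    {c c' : ι ⊕ Fin 30 → V} {r r' : V} (hr : r ∈ R) (hr' : r' ∈ R) (hn : near G r r')
    (h : d.CI u c (T.lv r)) (h' : d.CI (u + 1) c' (T.lv r')) (hc : ¬∃ y, near G (c y) r)
    (hc' : ¬∃ y, near G (c' y) r') (H : d.RI R x s u r) (hu : u < 2 * d.ρ s + d.τ)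
    (hl : T.lv r + 2 * d.τ ≤ d.D * d.τ) (hl' : T.lv r' + 2 * d.τ ≤ d.D * d.τ) :
    d.RI R x s (u + 1) r' := by
  classical
  obtain ⟨H1, H2, H3, H4⟩ := H
  have hb : s = 0 → r' ∈ ball G R x (u + 1) := fun e =>
    mem_ball.2 (.succ (mem_ball.1 (H3 e)) hn hr')
  by_cases e : C.cl r' = C.cl r
  · refine ⟨H1, e ▸ H2, hb, fun i hi => ?_⟩
    obtain ⟨a, b⟩ := H4 i hi
    refine ⟨by omega, b.imp (e ▸ ·) fun ⟨p, hp, q⟩ => ⟨p, hp, ?_⟩⟩
    have := dist_near hG (T.wl p.2.1 (p.2.2 * d.τ)) hn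
    omega
  have w1 : ¬T.Free (C.X (C.cl r)) r ∨ ¬T.Free (C.X (C.cl r)) r' := by
    by_contra a
    push Not at a
    exact e (C.mv r (hR hr) r' (hR hr') hn a.1 a.2)
  have w2 : ∃ w, (w = r ∨ w = r') ∧ ¬T.Free (C.X (C.cl r')) w := by
    by_contra a
    push Not at a
    exact e (C.mv r' (hR hr') r (hR hr) (nsymm hn) (a _ (Or.inr rfl)) (a _ (Or.inl rfl))).symm
  obtain ⟨w, hw, w2⟩ := w2
  obtain ⟨p', hp', e1, ⟨t, t1, t2, t3⟩, e3⟩ := d.piece hG w2 (by rcases hw with rfl | rfl <;> assumption)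
  cases s with
  | zero =>
    refine ⟨H1, e1 ▸ h0 p' ?_, hb, fun i hi => by omega⟩
    simp only [Cells.tch, mem_filter]
    refine ⟨hp', t, t1, t2, t3 ▸ ?_⟩
    rcases hw with rfl | rfl
    · exact ball_mono Subset.rfl (by omega) (H3 rfl)
    · exact ball_mono Subset.rfl (by omega) (hb rfl)
  | succ i =>
    obtain ⟨a, b⟩ := H4 i rfl
    have J2 : ∃ p ∈ d.S i, G.dist (T.wl p.2.1 (p.2.2 * d.τ)) r' + 4 * d.ρ i ≤ 2 * (u + 1) := by
      rcases b with b | ⟨p, hp, q⟩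
      · rcases w1 with w1 | w1
        · obtain ⟨p, hp, q⟩ := h.on hG (by omega) a b w1 hc
          have := dist_near hG (T.wl p.2.1 (p.2.2 * d.τ)) hn
          exact ⟨p, hp, by omega⟩
        · obtain ⟨p, hp, q⟩ := h'.on hG (by omega) (by omega) b w1 hc'
          exact ⟨p, hp, by omega⟩
      · have := dist_near hG (T.wl p.2.1 (p.2.2 * d.τ)) hn
        exact ⟨p, hp, by omega⟩
    refine ⟨H1, ?_, hb, fun i' hi => ?_⟩
    · obtain ⟨p, hp, q⟩ := J2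
      refine e1 ▸ d.nxt i H1 p hp p' hp' ?_
      have q1 : G.dist (T.wl p.2.1 (p.2.2 * d.τ)) w ≤ G.dist (T.wl p.2.1 (p.2.2 * d.τ)) r' + 1 := by
        rcases hw with rfl | rfl
        · exact dist_near hG _ (nsymm hn)
        · omega
      have q2 := hG.dist_triangle (u := T.wl p'.2.1 (p'.2.2 * d.τ)) (v := w)
        (w := T.wl p.2.1 (p.2.2 * d.τ))
      rw [SimpleGraph.dist_comm (u := w)] at q2
      have := (d.hρ i H1).2
      omega
    · obtain rfl : i = i' := by omega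
      exact ⟨by omega, Or.inr J2⟩

end L2

open L2 Light

variable {V : Type} [Fintype V] [DecidableEq V] {G : SimpleGraph V}

theorem light2 (hG : G.Connected) (hb : BatchS G) (R₀ : Finset V) (z : V) (T : Bf G R₀ z)
    (Λ : Type) [Fintype Λ] (n : ℕ) (C : Cells T Λ n) (R : Finset V) (τ D K k h L : ℕ) (ρ : ℕ → ℕ)
    (hR : R ⊆ R₀) (hτ : 0 < τ) (hK : 0 < K) (hL : L + 2 * τ ≤ D * τ) (hk : D * τ ≤ 2 * ρ k)
    (hρ : ∀ i < k, ρ i + τ ≤ ρ (i + 1) ∧ 4 * ρ (i + 1) + 3 * τ ≤ 5 * ρ i) :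
    TT G (k * (n * D / K) + 20 * D * (h + 1) * (40 * D * K) ^ k + 30) R
      (· ∈ C.light D τ R (2 * ρ 0 + τ) h) T.lv L (2 * ρ k + τ) := by
  classical
  have hD0 : 0 < D := by
    rcases Nat.eq_zero_or_pos D with rfl | a
    · omega
    · exact a
  obtain ⟨ι, _, c₀, h1, h2⟩ := hb (Λ × V × ℕ) Λ (C.pcs D) (fun p => T.wl p.2.1 (p.2.2 * τ)) Prod.fst
    z (20 * D) K k (h + 1) ρ hK (by omega) (fun Δ s a b => by
      have : s ⊆ {Δ} ×ˢ C.X Δ ×ˢ range D := fun p hp => by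
        have := mem_pcs.1 (a hp)
        simp only [mem_product, mem_singleton, mem_range]
        exact ⟨b p hp, b p hp ▸ this.2, this.1⟩
      refine (card_le_card this).trans ?_
      simp only [card_product, card_singleton, card_range, one_mul]
      exact Nat.mul_le_mul_right _ (C.le Δ)) (fun p hp => by
      have a := mem_pcs.1 hp
      have b := T.dist_wl hG (C.sub _ a.2) (s := 0) (t := p.2.2 * τ) (d := p.2.2 * τ)
        (by omega) (by omega)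
      rw [T.wl_zero (C.sub _ a.2)] at b
      exact b.trans ((Nat.mul_le_mul_right _ a.1.le).trans hk))
  refine ⟨ι ⊕ Fin 30, inferInstance, Sum.elim c₀ fun _ => z, fun u c r => (∃ y, near G (c y) r) ∨
    ∃ (d : L2.Dat C ι) (x : V) (s : ℕ), d.τ = τ ∧ d.D = D ∧ d.k = k ∧ d.ρ = ρ ∧
      (∀ p ∈ C.tch d.D d.τ (ball G R x (2 * d.ρ 0 + d.τ)), p.1 ∈ d.Cs 0) ∧ d.CI u c (T.lv r) ∧
      d.RI R x s u r ∧ u ≤ 2 * d.ρ s + d.τ, ?_, fun x hx hl hxl => .inr ?_, ?_⟩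
  · rw [Fintype.card_sum, Fintype.card_fin, show 40 * D * K = 2 * (20 * D) * K by ring]
    have := Nat.mul_le_mul_left k (Nat.div_le_div_right (c := K) (C.card_pcs D))
    omega
  · simp only [Cells.light, mem_filter] at hl
    obtain ⟨Cs, S, g, a1, a2, a3, a4, a5, a6⟩ := h2
      (insert (C.cl x) ((C.tch D τ (ball G R x (2 * ρ 0 + τ))).image Prod.fst))
      ((card_insert_le _ _).trans (Nat.succ_le_succ (card_image_le.trans hl.2)))
    refine ⟨⟨τ, D, k, ρ, Cs, S, g, hτ, hρ, a2, a3, a5, a6⟩, x, 0, rfl, rfl, rfl, rfl, fun p hp => ?_,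
      ⟨fun _ j => j * τ, fun _ _ => rfl, fun i hi => ?_, fun i hi p hp b1 b2 => ?_⟩,
      ⟨Nat.zero_le _, ?_, fun _ => self_mem_ball hx, fun i hi => by omega⟩, Nat.zero_le _⟩
    · exact a1.ge (mem_insert_of_mem (mem_image_of_mem _ hp))
    · rw [Nat.zero_sub]
      exact PI.start hτ (show T.lv x + 2 * τ ≤ D * τ by omega)
    · obtain ⟨y, y1, y2⟩ := a4 i hi p hp b1 b2
      exact ⟨y, y1, fun _ => y2, fun hu => hG.dist_eq_zero_iff.1 (Nat.le_zero.1 (y2.trans hu))⟩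
    · exact a1.ge (mem_insert_self _ _)
  · rintro u c r hr (⟨y, hy⟩ | ⟨d, x, s, rfl, rfl, rfl, rfl, h0, h, h', hu⟩) hl
    · exact .inl (.cap y hy)
    rcases L2.norm hR hr h h' hu with a | ⟨s, a, b⟩
    · exact .inl a
    by_cases hc : ∃ y, near G (c y) r
    · exact .inl (.cap _ hc.choose_spec)
    obtain ⟨c', k1, k2⟩ := h.step hG
    have := d.mono a.1
    refine .inr ⟨by omega, c', k1, fun r' hr' hn hl' => ?_⟩
    by_cases hc' : ∃ y, near G (c' y) r'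
    · exact .inl hc'
    have k3 := k2 (T.lv r') (T.lip _ (hR hr') _ (hR hr) (nsymm hn)) (T.lip _ (hR hr) _ (hR hr') hn)
      (by omega)
    exact .inr ⟨d, x, s, rfl, rfl, rfl, rfl, h0, k3,
      L2.RI_step hG hR h0 hr hr' hn h k3 hc hc' a b (by omega) (by omega), b⟩

end Pool.Agent.MP_de21d3_co.H85
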