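import Pool.Agent.MP_de21d3_co.H85.Step
import Pool.Agent.MP_de21d3_co.H6.Final

/-!
The recursion with explicit constants.
-/

set_option linter.unusedSectionVars false

namespace Pool.Agent.MP_de21d3_co.H85

open Finset Function H91 H6

lemma arith {E u Kc H Θ D Q Q' m k' : ℕ} (hE : 0 < E) (hK' : 48 * (u + 4) * D * E ≤ Kc)
    (hH : 0 < H) (hH' : 20 * D * Q * E ≤ H) (hΘ' : 468 * H * D * E ≤ Θ) (hΘ : 0 < Θ) (D0 : 0 < D)
    (e1 : Q' ≤ Q) :
    60 * m / (60 * E) + (6 * m * D / (m / H + 1) * (18 * (m / Θ + 7) + 60 * m / Θ + 60 * Θ + 400) +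
      (2 * (8 * u * (6 * m * D / Kc) + 20 * D * (m / H + 1) * Q' + 30) + (60 * m / (60 * E) +
        (8 * (u + 4) * (6 * m * D / Kc) + 20 * D * (m / H + 1) * Q + 30 + 6 * m * D / (m / H + 1) *
          (18 * (m / Θ + 7) + 60 * m / Θ + 60 * Θ + 400) + k')))) ≤
      10 * (m / E) + 739 * Θ ^ 2 + k' := by
  have a2 : 60 * m / (60 * E) = m / E := Nat.mul_div_mul_left _ _ (by norm_num)
  have a3 : 8 * (u + 4) * (6 * m * D / Kc) ≤ m / E := by
    rw [Nat.le_div_iff_mul_le hE]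
    refine Nat.le_of_mul_le_mul_left ?_ (show 0 < 6 * D by omega)
    have := Nat.mul_div_le (6 * m * D) Kc
    have := Nat.mul_le_mul_right (6 * m * D / Kc) hK'
    nlinarith
  have a3' : 8 * u * (6 * m * D / Kc) ≤ m / E := le_trans (by gcongr; omega) a3
  have a4 : 20 * D * Q * (m / H) ≤ m / E := div_le_of hE hH'
  have a5 : 6 * m * D / (m / H + 1) ≤ 6 * H * D := by
    refine Nat.div_le_of_le_mul ?_
    have := Nat.mul_le_mul_right (6 * D) (Nat.lt_mul_div_succ m hH).le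
    linarith
  have a6 : 60 * m / Θ ≤ 60 * (m / Θ) + 60 := by
    refine Nat.div_le_of_le_mul ?_
    have := Nat.lt_mul_div_succ m hΘ
    linarith
  have a7 : 468 * H * D * (m / Θ) ≤ m / E := div_le_of hE hΘ'
  have a8 := Nat.mul_le_mul a5 (show 18 * (m / Θ + 7) + 60 * m / Θ + 60 * Θ + 400 ≤
    78 * (m / Θ) + (60 * Θ + 586) by omega)
  have b1 : 468 * H * D ≤ Θ := le_trans (Nat.le_mul_of_pos_right _ hE) hΘ'
  have b2 : 20 * D * Q ≤ H := le_trans (Nat.le_mul_of_pos_right _ hE) hH'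
  have b3 : H ≤ H * D := Nat.le_mul_of_pos_right _ D0
  have b4 : 20 * D * (m / H + 1) * Q ≤ m / E + Θ := by linarith
  have b5 : 20 * D * (m / H + 1) * Q' ≤ m / E + Θ := le_trans (by gcongr) b4
  have b6 : 6 * H * D * (78 * (m / Θ) + (60 * Θ + 586)) ≤ m / E + Θ * (60 * Θ + 586) := by
    have := Nat.mul_le_mul_right (60 * Θ + 586) (show 6 * (H * D) ≤ Θ by linarith)
    linarith
  have b7 := a8.trans b6
  have b8 : Θ ≤ Θ * Θ := Nat.le_mul_of_pos_right _ hΘ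
  have b9 : 468 ≤ Θ := by linarith
  have b10 := Nat.mul_le_mul_right Θ b9
  rw [a2]
  linarith

section
variable {V : Type} [Fintype V] [DecidableEq V] {G : SimpleGraph V} {N W : Type} [Fintype N]
  [DecidableEq N] [Fintype W] [DecidableEq W] {K : Cx G N W}

theorem step2 {E n u Kc H Θ : ℕ} (hE : 0 < E) (hn : 0 < n) (hu : 751 * n ≤ 2 ^ u) (hK : 0 < Kc)
    (hK' : 48 * (u + 4) * (16 * 2 ^ u) * E ≤ Kc) (hH : 0 < H)
    (hH' : 20 * (16 * 2 ^ u) * (40 * (16 * 2 ^ u) * Kc) ^ (8 * (u + 4)) * E ≤ H)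
    (hΘ' : 468 * H * (16 * 2 ^ u) * E ≤ Θ) (hΘ'' : Θ ≤ 2 ^ (n / (60 * E))) (hG : G.Connected)
    (h : All2 K) (hL : K.LS (2000 * n)) {m k' : ℕ} (hm : 24 ≤ m) (hk : K.Good (m / 2 + 2) k') :
    K.Good m (10 * (m / E) + 739 * Θ ^ 2 + k') := by
  intro R Y hR hY hRY hψ
  classical
  have bY : ∀ x r, (ball G R x r).map K.ι ⊆ Y := fun _ _ => (map_subset_map.2 ball_sub).trans hRY
  by_cases a : K.gv Y R ≤ m / 2 + 2
  · exact (hk.wn hY hRY hR a).mono (by omega) Subset.rfl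
  rcases R.eq_empty_or_nonempty with rfl | ⟨x, hx⟩
  · exact wn_empty _
  have ex : ∃ r, ∃ y ∈ R, m / 2 + 2 < K.gv Y (ball G R y r) := by
    choose! f hf using hR x hx
    refine ⟨R.sup f, x, hx, (not_le.1 a).trans_le (Cx.gv_mono hY (bY _ _) fun v hv =>
      mem_ball.2 ((hf v hv).le (le_sup hv)))⟩
  obtain ⟨y, hy, b⟩ := Nat.find_spec ex
  have c : ∀ r < Nat.find ex, ∀ x ∈ R, K.gv Y (ball G R x r) ≤ m / 2 + 2 := fun r hr x hx =>
    not_lt.1 fun e => Nat.find_min ex hr ⟨x, hx, e⟩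
  generalize Nat.find ex = r at b c
  have d : 1000 * n < r := lt_of_not_ge fun e => by
    have := hL (ball G R y r) fun u hu v hv =>
      (((mem_ball.1 hu).symm.trans (mem_ball.1 hv)).dist hG).trans (by omega)
    have := Cx.gv_le (n := 4) (Cx.conn_map cn_ball) Subset.rfl (bY y r) (by omega)
    omega
  have t1 := Nat.mul_div_le (r - 1) (1000 * n)
  have t2 := Nat.lt_mul_div_succ (r - 1) (show 0 < 1000 * n by omega)
  have t3 : 0 < (r - 1) / (1000 * n) := Nat.div_pos (by omega) (by omega)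
  generalize (r - 1) / (1000 * n) = τ at t1 t2 t3
  obtain ⟨T⟩ := h.tree (ball G R y (8 * 2 ^ u * τ)) y (self_mem_ball hy) cn_ball
  obtain ⟨T'⟩ := h.tree R y hy hR
  have u0 : 1 ≤ 2 ^ u := Nat.one_le_two_pow
  have D0 : 0 < 16 * 2 ^ u := by omega
  have p4 : 4 ≤ Θ := by nlinarith [Nat.mul_pos (Nat.mul_pos hH D0) hE]
  have hΘ : 0 < Θ := by omega
  have q1 : m / Θ + 7 ≤ m / 2 + 2 := by
    have := Nat.div_le_div_left (a := m) p4 (by norm_num); omega
  have q2 : m / 2 + 2 ≤ (m / Θ + 7) * 2 ^ (n / (60 * E)) := by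
    have a1 := Nat.lt_mul_div_succ m hΘ
    have a2 := Nat.mul_le_mul_left (m / Θ + 7) hΘ''
    have a3 : m / 2 + 2 ≤ m := by omega
    nlinarith [Nat.zero_le (m / Θ)]
  have s := h.single T (u := u + 4) (D := 16 * 2 ^ u) (hh := m / H) (M := m / Θ + 7) hY (bY _ _) hψ
    hk t3 hn (show 0 < 60 * E by omega) hK hΘ (Nat.le_add_left _ _) q1 q2
    (fun v hv => by
      have a1 := (T.mem_ball.1 (mem_ball.2 ((mem_ball.1 hv).restrict Subset.rfl))).2
      nlinarith) (by rw [pow_add]; omega)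
    fun x hx => (Cx.gv_mono hY (bY _ _) (ball_mono ball_sub le_rfl)).trans
      (c _ (by omega) x (ball_sub hx))
  have q3 : r ≤ 2000 * n * τ := by
    have b2 := Nat.le_mul_of_pos_right n t3
    have b3 : r ≤ 1000 * n * (τ + 1) := by omega
    nlinarith
  refine (h.whole hG T' (hh := m / H) (Kc := Kc) (r := r) hY hRY hψ hk
    ((Nat.le_add_left _ _).trans (Nat.le_add_left _ _)) t3 hn
    (show 0 < 60 * E by omega) hK hΘ (Nat.le_add_left _ _) q1 q2 hu q3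
    (fun x hx => c _ (by omega) x hx) s fun C hC cC ⟨x, hx⟩ hd => ?_).mono ?_ Subset.rfl
  · have := h.out hY hψ (by omega) cn_ball ⟨y, self_mem_ball hy⟩ (bY y r) cC hx
      ((map_subset_map.2 hC).trans hRY) hd
    omega
  exact arith hE hK' hH hH' hΘ' hΘ D0 (Nat.pow_le_pow_right (by positivity) (by omega))

lemma sq_le (x : ℕ) (hx : 20 ≤ x) : 800 * x ^ 2 ≤ 2 ^ x := by
  induction x, hx using Nat.le_induction with
  | base => norm_num
  | succ x hx ih => rw [pow_succ 2]; nlinarith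

theorem step3 {E c : ℕ} (hE : 0 < E) (hc : E ≤ 2 ^ c) (hG : G.Connected) (h : All2 K)
    (hL : K.LS (2000 * (60 * E * 2 ^ (c + 20)))) {m k' : ℕ} (hm : 24 ≤ m)
    (hk : K.Good (m / 2 + 2) k') :
    K.Good m (10 * (m / E) + 739 * (2 ^ (200 * (2 * c + 40) ^ 2)) ^ 2 + k') := by
  obtain ⟨U, hU⟩ : ∃ U, U = 2 * c + 40 := ⟨_, rfl⟩
  have hD : 16 * 2 ^ (2 * c + 36) = 2 ^ U := by rw [hU]; ring
  have hU' : 2 * c + 36 + 4 = U := by omega
  have hEu : E ≤ 2 ^ U := hc.trans (Nat.pow_le_pow_right (by norm_num) (by omega))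
  have huu : U ≤ 2 ^ U := Nat.lt_two_pow_self.le
  rw [← hU]
  refine step2 (u := 2 * c + 36) (Kc := 2 ^ (3 * U + 6)) (H := 2 ^ (32 * U ^ 2 + 98 * U + 5)) hE
    (by positivity) ?_ (by positivity) ?_ (by positivity) ?_ ?_ ?_ hG h hL hm hk
  · calc 751 * (60 * E * 2 ^ (c + 20)) ≤ 751 * (60 * 2 ^ c * 2 ^ (c + 20)) := by gcongr
      _ = 45060 * 2 ^ (2 * c + 20) := by ring
      _ ≤ 65536 * 2 ^ (2 * c + 20) := Nat.mul_le_mul_right _ (by norm_num)
      _ = 2 ^ (2 * c + 36) := by ring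
  · rw [hD, hU']
    calc 48 * U * 2 ^ U * E ≤ 2 ^ 6 * 2 ^ U * 2 ^ U * 2 ^ U :=
          Nat.mul_le_mul (Nat.mul_le_mul_right _ (Nat.mul_le_mul (by norm_num) huu)) hEu
      _ = 2 ^ (3 * U + 6) := by
        simp only [← pow_add]; exact congrArg (2 ^ ·) (by ring)
  · rw [hD, hU']
    calc 20 * 2 ^ U * (40 * 2 ^ U * 2 ^ (3 * U + 6)) ^ (8 * U) * E
        ≤ 2 ^ 5 * 2 ^ U * (2 ^ 6 * 2 ^ U * 2 ^ (3 * U + 6)) ^ (8 * U) * 2 ^ U :=
          Nat.mul_le_mul (Nat.mul_le_mul (Nat.mul_le_mul_right _ (by norm_num)) (Nat.pow_le_pow_left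
            (Nat.mul_le_mul_right _ (Nat.mul_le_mul_right _ (by norm_num))) _)) hEu
      _ = 2 ^ (32 * U ^ 2 + 98 * U + 5) := by
        simp only [← pow_add, ← pow_mul]; exact congrArg (2 ^ ·) (by ring)
  · rw [hD]
    calc 468 * 2 ^ (32 * U ^ 2 + 98 * U + 5) * 2 ^ U * E
        ≤ 2 ^ 9 * 2 ^ (32 * U ^ 2 + 98 * U + 5) * 2 ^ U * 2 ^ U :=
          Nat.mul_le_mul (Nat.mul_le_mul_right _ (Nat.mul_le_mul_right _ (by norm_num))) hEu
      _ = 2 ^ (32 * U ^ 2 + 100 * U + 14) := by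
        simp only [← pow_add]; exact congrArg (2 ^ ·) (by ring)
      _ ≤ 2 ^ (200 * U ^ 2) := Nat.pow_le_pow_right (by norm_num) (by nlinarith)
  · rw [Nat.mul_div_cancel_left _ (by omega)]
    refine Nat.pow_le_pow_right (by norm_num) ?_
    have := sq_le (c + 20) (by omega)
    rw [hU]
    nlinarith

theorem recur2 {e C : ℕ} (he : 0 < e) (hA : All K)
    (h : ∀ m k', 24 ≤ m → K.Good (m / 2 + 2) k' → K.Good m (10 * (m / (40 * e)) + C + k')) (m : ℕ) :
    K.Good m (m / e + (6 * (40 * e * (C + 3)) + 30)) := by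
  induction m using Nat.strong_induction_on with
  | _ m ih =>
  by_cases a : m ≤ 40 * e * (C + 3)
  · exact fun R Y a b c d => (hA.base m R Y a b c d).mono
      (le_trans (by omega) (Nat.le_add_left _ _)) Subset.rfl
  have b : 120 ≤ 40 * e * (C + 3) := by nlinarith
  refine fun R Y x y z w => (h m _ (by omega) (ih _ (by omega)) R Y x y z w).mono
    ?_ Subset.rfl
  have c : m / (40 * e) = m / e / 40 := by rw [Nat.div_div_eq_div_mul, mul_comm]
  have d : 40 * (C + 3) ≤ m / e := (Nat.le_div_iff_mul_le he).2 (by nlinarith)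
  have f : (m / 2 + 2) / e ≤ m / e / 2 + 2 := by
    rw [Nat.div_div_eq_div_mul, mul_comm, ← Nat.div_div_eq_div_mul, ← Nat.add_mul_div_right _ _ he]
    exact Nat.div_le_div_right (by omega)
  omega

lemma all2 (K : Cx G N W) (hG : G.Connected) : All2 K := by
  have d := decXS K decS
  have p := psiS K (lowS K hG decS (treeS K))
  have c := cellS K hG (bringS hG) (sealS K)
  have k := killS K (countS K) d (posS K)
  exact ⟨⟨teamsS hG, wallS hG, linS hG, zoneGS hG, lightS hG (batchS hG), netS hG, treeS K, d, p, c,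
    zdS K (sealS K) d p c (monoS K (countS K) d), carveS K p k⟩, k, batchS hG⟩

end

lemma const_le (j : ℕ) : 6 * (40 * 2 ^ (j + 1) *
    (739 * (2 ^ (200 * (2 * (j + 7) + 40) ^ 2)) ^ 2 + 3)) + 30 + 1 ≤
      2 ^ (1200000 * (j + 1) ^ 2) := by
  rw [← pow_mul]
  obtain ⟨Y, hY⟩ : ∃ Y, Y = 200 * (2 * (j + 7) + 40) ^ 2 * 2 := ⟨_, rfl⟩
  rw [← hY]
  have a : 1 ≤ 2 ^ Y := Nat.one_le_two_pow
  have b : 1 ≤ 2 ^ (j + 1) := Nat.one_le_two_pow
  calc 6 * (40 * 2 ^ (j + 1) * (739 * 2 ^ Y + 3)) + 30 + 1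
      ≤ 2 ^ 18 * 2 ^ (j + 1) * 2 ^ Y := by nlinarith [Nat.mul_le_mul a b]
    _ = 2 ^ (18 + (j + 1) + Y) := by rw [← pow_add, ← pow_add]
    _ ≤ _ := Nat.pow_le_pow_right (by norm_num) (by rw [hY]; nlinarith)

theorem top2 (j : ℕ) (V : Type) [Fintype V] [DecidableEq V] (G : SimpleGraph V)
    (hG : G.Connected) (σ : Scheme G) (g : ℕ)
    (hg : Nat.card G.edgeSet + 2 ≤ Nat.card V + σ.faces + g) :
    ∃ k ≤ g / 2 ^ j + 2 ^ (1200000 * (j + 1) ^ 2), CopsWin G k := by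
  by_cases a : ∀ u, ∃ v, G.Adj u v
  · obtain ⟨k₀, hk₀⟩ : ∃ k₀, k₀ = 2000 * (60 * (40 * 2 ^ (j + 1)) * 2 ^ (j + 7 + 20)) := ⟨_, rfl⟩
    obtain ⟨V', _, _, G', ⟨S⟩⟩ := subS (G := G) (2 * (k₀ + 2)) (by omega)
    obtain ⟨b, -, -, c⟩ := subDS hG V' G' _ S (by omega)
    obtain ⟨N, W, _, _, _, _, K, d, f⟩ := cxS σ g V' G' _ S (by omega) b a hg
    have hA := all2 K b
    have hL : K.LS k₀ := fun B hB => by
      have := f B
      have := sparseS V' G' _ S B fun x y hx hy => c x y ((hB _ hx _ hy).trans_lt (by omega))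
      omega
    refine ⟨_, ?_, simS hG (subDS hG) V' G' _ _ S (by omega) (recur2 (e := 2 ^ (j + 1))
      (by positivity) hA.toAll (fun m k' hm hk => step3 (c := j + 7) (by positivity)
        (by rw [show j + 7 = j + 1 + 6 by ring, pow_add 2 (j + 1) 6]; omega) b hA (hk₀ ▸ hL) hm hk) (2 * g)
      univ univ (fun u _ v _ => ?_) Cx.conn_univ (subset_univ _) (by exact_mod_cast d))⟩
    · have := const_le j
      rw [pow_succ' 2 j, Nat.mul_div_mul_left _ _ (by norm_num), ← pow_succ' 2 j]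
      omega
    · obtain ⟨w⟩ := b.preconnected u v
      induction w with
      | nil => exact ⟨0, .zero (mem_univ _)⟩
      | cons x _ ih =>
        exact (ih (mem_univ _) (mem_univ _)).elim fun _ i =>
          ⟨_, (Rch.one (mem_univ _) (Or.inr x) (mem_univ _)).trans i⟩
  · push Not at a
    obtain ⟨u, hu⟩ := a
    refine ⟨1, Nat.one_le_two_pow.trans (Nat.le_add_left _ _), copsWin_of (fun _ => u) fun r =>
      win_step (fun _ => nrefl _) (Or.inl ⟨⟨0, Nat.succ_pos _⟩, ?_⟩)⟩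
    obtain ⟨w⟩ := hG.preconnected u r
    cases w with
    | nil => rfl
    | cons x _ => exact absurd x (hu _)

end Pool.Agent.MP_de21d3_co.H85
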