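import Pool.Agent.MP_de21d3_co.H85.Lab

/-!
Pairings of the flags at every vertex, and the repair of pinched vertices.
-/

namespace Pool.Agent.MP_de21d3_co.H85

open Module Pool.Agent.MP_aee211_co.H75 Function Finset
open scoped Classical

theorem exists_inv {X Y : Type} [Fintype X] (f : X → Y)
    (h : ∀ y, Even (univ.filter fun x => f x = y).card) :
    ∃ a : X → X, Involutive a ∧ (∀ x, a x ≠ x) ∧ ∀ x, f (a x) = f x := by
  have e : ∀ y, ∃ k, Nonempty ({x // f x = y} ≃ Fin k × Bool) := fun y => by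
    obtain ⟨k, hk⟩ := h y
    exact ⟨k, ⟨Fintype.equivOfCardEq (by simp [Fintype.card_subtype, hk]; omega)⟩⟩
  choose k e using e
  replace e := fun y => (e y).some
  let b : (Σ y, {x // f x = y}) → Σ y, {x // f x = y} := fun p =>
    ⟨p.1, (e p.1).symm ((e p.1 p.2).1, !(e p.1 p.2).2)⟩
  have b1 : Involutive b := fun p => by simp [b]
  have b2 : ∀ p, b p ≠ p := fun p h => by
    have : (e p.1).symm ((e p.1 p.2).1, !(e p.1 p.2).2) = p.2 := eq_of_heq (Sigma.ext_iff.1 h).2
    simpa using congrArg (fun z => (e p.1 z).2) this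
  let E := Equiv.sigmaFiberEquiv f
  refine ⟨fun x => E (b (E.symm x)), fun x => by simp [b1 _], fun x h => b2 (E.symm x) ?_,
    fun x => (b (E.symm x)).2.2⟩
  exact E.injective (by simpa using h)

theorem rank_orth {P A B : Type} [Fintype P] [Fintype A] [Fintype B] (f : (A → F2) →ₗ[F2] (P → F2))
    (g : (B → F2) →ₗ[F2] (P → F2)) (h : ∀ a b, ∑ p, f a p * g b p = 0) :
    finrank F2 (LinearMap.range f) + finrank F2 (LinearMap.range g) ≤ Fintype.card P := by
  have := Matrix.rank_add_rank_le_card_of_mul_eq_zero (A := (LinearMap.toMatrix' f).transpose)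
    (B := LinearMap.toMatrix' g) (by
      ext a b
      simpa [Matrix.mul_apply] using h (Pi.single a 1) (Pi.single b 1))
  rwa [Matrix.rank_transpose, Matrix.rank, Matrix.rank, ← Matrix.toLin'_apply',
    ← Matrix.toLin'_apply', Matrix.toLin'_toMatrix', Matrix.toLin'_toMatrix'] at this

variable {V : Type} [Fintype V] {G : SimpleGraph V}

/-- The other end of the same side. -/
def s0 (x : G.Dart × Bool) : G.Dart × Bool := (x.1.symm, x.2)

/-- The other side at the same end. -/
def s2 (x : G.Dart × Bool) : G.Dart × Bool := (x.1, !x.2)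

/-- A pairing of the flags at every vertex. -/
structure Pr (G : SimpleGraph V) where
  a : G.Dart × Bool → G.Dart × Bool
  inv : Involutive a
  ne : ∀ x, a x ≠ x
  fst : ∀ x, (a x).1.fst = x.1.fst

/-- Moves along a face. -/
def Pr.FR (A : Pr G) (x y : G.Dart × Bool) : Prop := y = s0 x ∨ y = A.a x

/-- Moves around a vertex. -/
def Pr.UR (A : Pr G) (x y : G.Dart × Bool) : Prop := y = s2 x ∨ y = A.a x

omit [Fintype V] in
lemma s2_s2 (x : G.Dart × Bool) : s2 (s2 x) = x := by simp [s2]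

omit [Fintype V] in
lemma s2_ne (x : G.Dart × Bool) : s2 x ≠ x := fun h => by simpa [s2] using congrArg Prod.snd h

lemma Pr.euler (A : Pr G) : Nat.card (Quot A.UR) +
    2 * finrank F2 (LinearMap.range (bd2 (Quot.mk A.FR))) ≤
      Nat.card (Quot A.FR) + Fintype.card G.edgeSet := by
  have := Fintype.ofFinite (Quot A.UR)
  have := Fintype.ofFinite (Quot A.FR)
  set δ := sidesL (fun e : G.edgeSet => Quot.mk A.UR (dartOf e, false))
    (fun e => Quot.mk A.UR ((dartOf e).symm, false)) with hδ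
  have u : ∀ d b, Quot.mk A.UR (d, b) = Quot.mk A.UR (d, false) := fun d b => by
    cases b
    exacts [rfl, Quot.sound (.inl rfl)]
  have v : ∀ d b, Quot.mk A.FR (d.symm, b) = Quot.mk A.FR (d, b) := fun d b =>
    (Quot.sound (.inl rfl)).symm
  have h1 := rank_orth δ (bd2 (Quot.mk A.FR)) fun f c => by
    have a : ∑ x, f (Quot.mk _ x) * c (Quot.mk _ x) = 0 :=
      sum_involution (fun x _ => A.a x) (fun x _ => by
        rw [← Quot.sound (r := A.UR) (a := x) (.inr rfl), ← Quot.sound (r := A.FR) (a := x) (.inr rfl),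
          F2_add_self]) (fun x _ _ => A.ne x) (fun _ _ => mem_univ _) fun x _ => A.inv x
    rw [Fintype.sum_prod_type, sum_dart] at a
    rw [← a]
    refine sum_congr rfl fun e _ => ?_
    simp only [hδ, bd2, sidesL_apply, Fintype.sum_bool, u _ true, v]
    ring
  have h2 : finrank F2 (LinearMap.ker δ) ≤ finrank F2 (LinearMap.ker (bd2 (Quot.mk A.FR))) := by
    rw [LinearEquiv.finrank_eq (Submodule.equivMapOfInjective
      (LinearMap.funLeft F2 F2 (Quot.mk A.UR))
      (LinearMap.funLeft_injective_of_surjective _ _ _ Quot.mk_surjective) _)]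
    refine le_trans (Submodule.finrank_mono ?_)
      (Submodule.finrank_map_le (LinearMap.funLeft F2 F2 (Quot.mk A.FR)) _)
    rintro _ ⟨f, hf, rfl⟩
    refine ⟨Quot.lift (fun x => f (Quot.mk _ x)) ?_, funext fun e => ?_, rfl⟩
    · rintro ⟨d, b⟩ y (rfl | rfl)
      · have := F2_eq_of_add (congrFun hf (eOf d))
        beta_reduce at this
        rw [s0, u, u d.symm]
        rcases dartOf_eOf d with h | h <;> rw [h] at this
        exacts [this, this.symm]
      · rw [Quot.sound (r := A.UR) (.inr rfl)]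
    · simp only [bd2, sidesL_apply, u _ true, F2_add_self, Pi.zero_apply]
  have h3 := LinearMap.finrank_range_add_finrank_ker δ
  have h4 := LinearMap.finrank_range_add_finrank_ker (bd2 (G := G) (Quot.mk A.FR))
  rw [finrank_fintype_fun_eq_card] at h3 h4
  rw [Nat.card_eq_fintype_card, Nat.card_eq_fintype_card]
  omega

lemma Pr.start {R : Type} [Fintype R] (l r : G.edgeSet → R) (h : ∀ c, bd1 G (sidesL l r c) = 0) :
    ∃ A : Pr G, finrank F2 (LinearMap.range (sidesL l r)) ≤
      finrank F2 (LinearMap.range (bd2 (Quot.mk A.FR))) := by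
  let lab : G.Dart × Bool → R := fun x => if x.2 then r (eOf x.1) else l (eOf x.1)
  obtain ⟨a, a1, a2, a3⟩ := exists_inv (fun x : G.Dart × Bool => (x.1.fst, lab x)) fun ⟨v, ρ⟩ => by
    rw [← ZMod.natCast_eq_zero_iff_even, card_filter, Nat.cast_sum, Fintype.sum_prod_type]
    refine Eq.trans (sum_congr rfl fun d _ => ?_) (congrFun (h (Pi.single ρ 1)) v)
    rw [Fintype.sum_bool]
    by_cases e : d.fst = v <;> simp [e, lab, sidesL_apply, Pi.single_apply, add_comm]
  have := Fintype.ofFinite (Quot (Pr.FR ⟨a, a1, a2, fun x => (Prod.ext_iff.1 (a3 x)).1⟩))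
  refine ⟨⟨a, a1, a2, fun x => (Prod.ext_iff.1 (a3 x)).1⟩, Submodule.finrank_mono ?_⟩
  rintro _ ⟨c, rfl⟩
  refine ⟨Quot.lift (fun x => c (lab x)) ?_, funext fun e => ?_⟩
  · rintro x y (rfl | rfl)
    · simp only [lab, s0, eOf_symm]
    · exact congrArg c (congrArg Prod.snd (a3 x)).symm
  · simp [bd2, sidesL_apply, lab, eOf_dartOf]

lemma Pr.improve (A : Pr G) {x y : G.Dart × Bool} (hf : x.1.fst = y.1.fst)
    (hn : Quot.mk A.UR x ≠ Quot.mk A.UR y) : ∃ B : Pr G,
      Nat.card (Quot B.UR) < Nat.card (Quot A.UR) ∧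
        Nat.card (Quot A.FR) ≤ Nat.card (Quot B.FR) + 1 := by
  have ua : ∀ z, Quot.mk A.UR (A.a z) = Quot.mk A.UR z := fun z => (Quot.sound (.inr rfl)).symm
  let τ := Equiv.swap (A.a x) y
  have τ1 : ∀ z, (τ z).1.fst = z.1.fst := fun z =>
    Equiv.apply_swap_eq_self (v := fun z : G.Dart × Bool => z.1.fst) ((A.fst x).trans hf) z
  let B : Pr G := ⟨fun z => τ (A.a (τ z)), fun z => by simp [τ, A.inv _], fun z h => A.ne (τ z)
    (by simpa [τ] using congrArg τ h), fun z => by rw [τ1, A.fst, τ1]⟩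
  have ub : ∀ z, Quot.mk B.UR (τ (A.a (τ z))) = Quot.mk B.UR z := fun z =>
    (Quot.sound (.inr rfl)).symm
  have n1 : x ≠ y := fun e => hn (e ▸ rfl)
  have c1 : Quot.mk B.UR y = Quot.mk B.UR x := by
    rw [← ub x, show τ x = x from Equiv.swap_apply_of_ne_of_ne (A.ne x).symm n1]
    exact congrArg _ (Equiv.swap_apply_left _ _).symm
  have c2 : Quot.mk B.UR (A.a x) = Quot.mk B.UR x := by
    by_contra c
    let S := univ.filter fun z => Quot.mk B.UR z = Quot.mk B.UR x ∧ Quot.mk A.UR z = Quot.mk A.UR x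
    have xS : x ∈ S := mem_filter.2 ⟨mem_univ _, rfl, rfl⟩
    have e1 : ∑ _z ∈ S, (1 : F2) = 0 := sum_involution (fun z _ => s2 z) (fun _ _ => rfl)
      (fun z _ _ => s2_ne z) (fun z hz => mem_filter.2 ⟨mem_univ _,
        (Quot.sound (.inl rfl)).symm.trans (mem_filter.1 hz).2.1,
        (Quot.sound (.inl rfl)).symm.trans (mem_filter.1 hz).2.2⟩) fun z _ => s2_s2 z
    have e2 : ∑ _z ∈ S.erase x, (1 : F2) = 0 := sum_involution (fun z _ => A.a z) (fun _ _ => rfl)
      (fun z _ _ => A.ne z) (fun z hz => by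
        obtain ⟨z1, z2⟩ := mem_erase.1 hz
        obtain ⟨-, z2, z3⟩ := mem_filter.1 z2
        have z4 : z ≠ A.a x := fun e => c (e ▸ z2)
        refine mem_erase.2 ⟨fun e => z4 (e ▸ (A.inv z).symm), mem_filter.2 ⟨mem_univ _, ?_,
          (ua z).trans z3⟩⟩
        rw [← z2, ← ub z, show τ z = z from Equiv.swap_apply_of_ne_of_ne z4
          fun e => hn (z3.symm.trans (e ▸ rfl)), show τ (A.a z) = A.a z from
          Equiv.swap_apply_of_ne_of_ne (A.inv.injective.ne z1)
            fun e => hn (z3.symm.trans (e ▸ (ua z).symm))]) fun z _ => A.inv z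
    rw [← add_sum_erase S _ xS, e2] at e1
    exact absurd e1 (by decide)
  have c3 : ∀ z, Quot.mk B.UR (τ z) = Quot.mk B.UR z := fun z =>
    Equiv.apply_swap_eq_self (c2.trans c1.symm) z
  have := Fintype.ofFinite (Quot A.UR)
  have := Fintype.ofFinite (Quot B.UR)
  have := Fintype.ofFinite (Quot A.FR)
  have := Fintype.ofFinite (Quot B.FR)
  refine ⟨B, ?_⟩
  simp only [Nat.card_eq_fintype_card]
  refine ⟨Fintype.card_lt_of_surjective_not_injective (Quot.lift (Quot.mk B.UR) ?_) ?_
    fun h => hn (h c1.symm), ?_⟩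
  · rintro z _ (rfl | rfl)
    · exact Quot.sound (.inl rfl)
    · have := ub (τ z)
      rw [c3, c3, show τ (τ z) = z from Equiv.swap_apply_self _ _ _] at this
      exact this.symm
  · rintro ⟨z⟩
    exact ⟨Quot.mk _ z, rfl⟩
  · let g : Quot A.FR → Quot A.FR := fun q => if q = Quot.mk _ (A.a x) then Quot.mk _ y else q
    have g1 : ∀ z, g (Quot.mk _ (τ z)) = g (Quot.mk _ z) := fun z =>
      Equiv.apply_swap_eq_self (v := fun z => g (Quot.mk _ z)) (by simp [g]) z
    let g' : Quot B.FR → Quot A.FR := Quot.lift (fun z => g (Quot.mk _ z)) (by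
      rintro z _ (rfl | rfl)
      · exact congrArg g (Quot.sound (.inl rfl))
      · exact ((g1 _).trans ((congrArg g (Quot.sound (.inr rfl))).symm.trans (g1 z))).symm)
    have : (univ : Finset (Quot A.FR)) ⊆ insert (Quot.mk _ (A.a x)) (univ.image g') := by
      rintro ⟨z⟩ -
      by_cases e : Quot.mk A.FR z = Quot.mk _ (A.a x)
      · exact mem_insert.2 (.inl e)
      · exact mem_insert.2 (.inr (mem_image.2 ⟨Quot.mk _ z, mem_univ _, if_neg e⟩))
    exact (card_le_card this).trans ((card_insert_le _ _).trans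
      (Nat.add_le_add_right card_image_le _))

lemma Pr.final (A : Pr G) : ∃ B : Pr G, (∀ x y, x.1.fst = y.1.fst →
    Quot.mk B.UR x = Quot.mk B.UR y) ∧ Nat.card (Quot A.FR) + Nat.card (Quot B.UR) ≤
      Nat.card (Quot B.FR) + Nat.card (Quot A.UR) := by
  induction h : Nat.card (Quot A.UR) using Nat.strong_induction_on generalizing A with
  | _ n ih =>
  by_cases a : ∀ x y : G.Dart × Bool, x.1.fst = y.1.fst → Quot.mk A.UR x = Quot.mk A.UR y
  · exact ⟨A, a, by omega⟩
  push Not at a
  obtain ⟨x, y, a, b⟩ := a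
  obtain ⟨B, c, d⟩ := A.improve a b
  obtain ⟨C, e, f⟩ := ih _ (h ▸ c) B rfl
  exact ⟨C, e, by omega⟩

end Pool.Agent.MP_de21d3_co.H85
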