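import Pool.Agent.MP_de21d3_co.H6.Final

/-!
The cop number of a connected graph with an embedding scheme of Euler genus at most `g` is `o(g)`.
-/

namespace Pool.Agent.MP_de21d3_co.H85.RetiredSublinear

open Pool.Agent.MP_de21d3_co.H91

theorem result : ∀ e : ℕ, 0 < e → ∃ C : ℕ, ∀ (V : Type) [Fintype V] [DecidableEq V]
    (G : SimpleGraph V), G.Connected → ∀ (σ : Scheme G) (g : ℕ),
      Nat.card G.edgeSet + 2 ≤ Nat.card V + σ.faces + g → CopsWin G (g / e + C) :=
  Pool.Agent.MP_de21d3_co.H6.sublinear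

end Pool.Agent.MP_de21d3_co.H85.RetiredSublinear
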