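import Pool.Agent.MP_de21d3_co.H85.Bar
import Pool.Agent.MP_de21d3_co.H85.Carve2
import Pool.Agent.MP_de21d3_co.H6.Main

/-!
The recursion on the complexity without windows.
-/

set_option linter.unusedSectionVars false

namespace Pool.Agent.MP_de21d3_co.H85

open Finset Function H91 H6

variable {V : Type} [Fintype V] [DecidableEq V] {G : SimpleGraph V} {N W : Type} [Fintype N]
  [DecidableEq N] [Fintype W] [DecidableEq W] {K : Cx G N W}

/-- The statements used by the assembly. -/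
structure All2 (K : Cx G N W) : Prop extends All K where
  kill : KillS K
  batch : BatchS G

lemma TT.mono {k : ℕ} {R R' : Finset V} {Tg : V → Prop} {lv : V → ℕ} {L t : ℕ}
    (h : TT G k R Tg lv L t) (H : R' ⊆ R) : TT G k R' Tg lv L t := by
  obtain ⟨ι, _, c₀, Pl, a, b, d⟩ := h
  exact ⟨ι, _, c₀, Pl, a, fun x hx => b x (H hx), fun u c r hr p q => (d u c r (H hr) p q).imp
    (·.mono H) fun ⟨x, c', y, f⟩ => ⟨x, c', y, fun r' hr' => f r' (H hr')⟩⟩

lemma lv_rch {R : Finset V} {z x v : V} (T : Bf G R z) {n : ℕ} (h : Rch G R x n v) :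
    T.lv x ≤ T.lv v + n := by
  induction h with
  | zero _ => exact le_rfl
  | succ c a b ih => have := T.lip _ c.right _ b a; omega

lemma radii (τ i : ℕ) : τ * ((8 + i % 8) * 2 ^ (i / 8)) + τ ≤
      τ * ((8 + (i + 1) % 8) * 2 ^ ((i + 1) / 8)) ∧
    4 * (τ * ((8 + (i + 1) % 8) * 2 ^ ((i + 1) / 8))) + 3 * τ ≤
      5 * (τ * ((8 + i % 8) * 2 ^ (i / 8))) := by
  have a : (8 + (i + 1) % 8) * 2 ^ ((i + 1) / 8) = (8 + i % 8) * 2 ^ (i / 8) + 2 ^ (i / 8) := by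
    by_cases b : i % 8 = 7
    · rw [show (i + 1) % 8 = 0 by omega, show (i + 1) / 8 = i / 8 + 1 by omega, b, pow_succ]
      ring
    · rw [show (i + 1) % 8 = i % 8 + 1 by omega, show (i + 1) / 8 = i / 8 by omega]
      ring
  have b : 1 ≤ 2 ^ (i / 8) := Nat.one_le_two_pow
  simp only [a]
  generalize 2 ^ (i / 8) = x at *
  generalize i % 8 = j
  obtain ⟨x, rfl⟩ := Nat.exists_eq_add_of_le b
  constructor <;> nlinarith [Nat.zero_le (τ * x), Nat.zero_le (τ * j), Nat.zero_le (τ * j * x)]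

/-- A ball of radius `r` is forbidden for good. -/
lemma All2.whole (h : All2 K) (hG : G.Connected) {R : Finset V} {y : V} (T : Tr K R y)
    {Y : Finset W} {m μ k' k'' τ n e u Kc hh M β r : ℕ} (hY : K.Conn Y) (hRY : R.map K.ι ⊆ Y)
    (hm : K.psi Y + 4 ≤ m) (hk : K.Good μ k') (hkk : k' ≤ k'') (hτ : 0 < τ) (hn : 0 < n)
    (he : 0 < e) (hK : 0 < Kc) (hβ : 0 < β) (hM : 7 ≤ M) (hMμ : M ≤ μ) (hμ : μ ≤ M * 2 ^ (n / e))
    (hu : 751 * n ≤ 2 ^ u) (hr : r ≤ 2000 * n * τ)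
    (hb : ∀ x ∈ R, K.gv Y (ball G R x (1000 * n * τ)) ≤ μ)
    (hB : Wn G k'' (ball G R y (8 * 2 ^ u * τ)))
    (ho : ∀ C ⊆ R, Cn G C → C.Nonempty → Disjoint C (ball G R y r) → K.gv Y C ≤ μ) :
    Wn G (60 * m / e + (6 * m * (16 * 2 ^ u) / (hh + 1) * (18 * M + 60 * m / β + 60 * β + 400) +
      (2 * (8 * u * (6 * m * (16 * 2 ^ u) / Kc) + 20 * (16 * 2 ^ u) * (hh + 1) *
        (40 * (16 * 2 ^ u) * Kc) ^ (8 * u) + 30) + k''))) R := by
  classical
  have rad : 9 * (35 * τ + 1) + n * (2 * (9 * (35 * τ + 1)) + 2) ≤ 1000 * n * τ := by nlinarith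
  obtain ⟨A, hA, cA, hc⟩ := carve2 h.psi h.kill T (s := 9 * (35 * τ + 1)) (n := n) hY hRY hM he hμ
    fun x hx => (Cx.gv_mono hY ((map_subset_map.2 ball_sub).trans hRY)
      (ball_mono Subset.rfl rad)).trans (hb x hx)
  have cA' : A.card ≤ 60 * m / e := by
    have := hY.Psi_le (n := m) (by omega)
    exact (Nat.le_div_iff_mul_le he).2 (by nlinarith)
  refine (h.teams V A (fun _ => 1) (fun _ => ∅) (fun a => T.walls {a}) _ R (R.filter (T.Free A))
    (fun a ha => h.wall R y T.toBf a (hA ha)) (fun _ _ => wn_empty _)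
    (fun v hv H => mem_filter.2 ⟨hv, fun a ha => by_contra fun e =>
      H a ha (T.mem_walls.2 ⟨hv, fun f => e (f a (mem_singleton_self a))⟩)⟩) (filter_subset _ _)
    (fun a ha => disjoint_left.2 fun v hv hv' =>
      (T.mem_walls.1 hv').2 ((mem_filter.1 hv).2.mono (singleton_subset_iff.2 ha)))
    fun r₀ _ => ?_).mono (Nat.add_le_add_right (by simpa using cA') _) Subset.rfl
  generalize hS : cmp G (R.filter (T.Free A)) r₀ = S
  have S1 : S ⊆ R.filter (T.Free A) := hS ▸ cmp_sub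
  have S2 : S ⊆ R := S1.trans (filter_subset _ _)
  have S3 : Cn G S := hS ▸ cn_cmp
  have S4 : S.map K.ι ⊆ Y := (map_subset_map.2 S2).trans hRY
  have S5 : ∀ v ∈ R, T.P v ∈ S → v ∈ S := fun v hv hp => hS ▸ cmp_closed (hS ▸ hp)
    (nsymm (T.nr v hv)) (mem_filter.2 ⟨hv, fun a ha t e => by
      obtain ⟨s, hs⟩ := T.P_wl (hA ha) t
      exact (mem_filter.1 (S1 hp)).2 a ha s (e ▸ hs)⟩)
  obtain ⟨C⟩ := h.cells T hY hRY hm
  obtain ⟨X, hX⟩ : ∃ X, X = 2 ^ u * τ := ⟨_, rfl⟩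
  obtain ⟨X', hX'⟩ : ∃ X', X' = n * τ := ⟨_, rfl⟩
  have x1 : 751 * X' ≤ X := by rw [hX, hX']; nlinarith
  have x2 : τ ≤ X' := by rw [hX']; nlinarith
  have x3 : 16 * 2 ^ u * τ = 16 * X := by rw [hX]; ring
  have x4 : 8 * 2 ^ u * τ = 8 * X := by rw [hX]; ring
  have x5 : 1000 * n * τ = 1000 * X' := by rw [hX']; ring
  have x6 : 2000 * n * τ = 2000 * X' := by rw [hX']; ring
  have x7 : 2 * (τ * ((8 + 8 * u % 8) * 2 ^ (8 * u / 8))) = 16 * X := by
    simp only [Nat.mul_mod_right, Nat.mul_div_cancel_left u (by norm_num : 0 < 8), hX]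
    ring
  have hl := light2 hG h.batch R y T.toBf N _ C S τ (16 * 2 ^ u) Kc (8 * u) hh (16 * X - 2 * τ)
    (fun i => τ * ((8 + i % 8) * 2 ^ (i / 8))) S2 hτ hK (by omega) (by simp only [x7]; omega)
    fun i _ => radii τ i
  simp only [Nat.zero_mod, Nat.zero_div, pow_zero, x7,
    show 2 * (τ * ((8 + 0) * 1)) + τ = 17 * τ by ring] at hl
  obtain ⟨Z, hZ, sZ, cZ, nZ⟩ := h.net R y T.toBf N _ C S τ (16 * 2 ^ u) (17 * τ) hh
    (fun x => K.gv Y (ball G S x (9 * (35 * τ + 1))) ≤ M) S2 S5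
  have bY : ∀ x r, (ball G S x r).map K.ι ⊆ Y := fun _ _ => (map_subset_map.2 ball_sub).trans S4
  refine (h.teams V Z (fun _ => 18 * M + 60 * m / β + 60 * β + 400)
    (fun z => ball G S z (9 * (35 * τ + 1))) (fun z => ball G S z (35 * τ + 1))
    (2 * (8 * u * (6 * m * (16 * 2 ^ u) / Kc) + 20 * (16 * 2 ^ u) * (hh + 1) *
        (40 * (16 * 2 ^ u) * Kc) ^ (8 * u) + 30) + k'') S
    (S.filter fun v => ∀ z ∈ Z, v ∉ ball G S z (35 * τ + 1))
    (fun z hz => h.zone _ S3 (hZ hz) hY S4 hm hβ ((sZ z hz).trans (by omega)))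
    (fun z hz => (hk.wn hY (bY _ _) cn_ball ((sZ z hz).trans hMμ)).mono
      (hkk.trans (Nat.le_add_left _ _)) Subset.rfl)
    (fun v hv H => mem_filter.2 ⟨hv, H⟩) (filter_subset _ _)
    (fun j hj => disjoint_left.2 fun v hv => (mem_filter.1 hv).2 j hj) fun x _ => ?_).mono ?_
    Subset.rfl
  swap
  · simp only [sum_const, smul_eq_mul]
    have := (Nat.le_div_iff_mul_le (Nat.succ_pos hh)).2 cZ
    gcongr
  generalize hP : cmp G (S.filter fun v => ∀ z ∈ Z, v ∉ ball G S z (35 * τ + 1)) x = P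
  have P1 : P ⊆ S.filter fun v => ∀ z ∈ Z, v ∉ ball G S z (35 * τ + 1) := hP ▸ cmp_sub
  have P2 : P ⊆ S := P1.trans (filter_subset _ _)
  have P3 : P ⊆ R := P2.trans S2
  obtain ⟨NS, hNS⟩ : ∃ NS, NS = P.filter fun x => M < K.gv Y (ball G S x (9 * (35 * τ + 1))) :=
    ⟨_, rfl⟩
  have bar := barrier hG (hl.mono P2) (L₀ := r) (L := 8 * X - 2000 * X' - 1) (L' := 8 * X)
    (Out := fun v => 8 * X < T.lv v ∨ ∃ w, 8 * X ≤ T.lv w ∧ v ∈ cmp G NS w)
    (fun a ha b hb => T.lip a (P3 ha) b (P3 hb)) (fun _ _ => .inl) ?_ ?_ (by omega) (by omega)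
    (by omega) (by omega)
  · refine (h.teams Unit univ (fun _ => _) (fun _ => _) (fun _ => _) k'' P
      (P \ P.filter (T.lv · ≤ r)) (fun _ _ => bar) (fun _ _ => hB.mono le_rfl fun v hv => ?_)
      (fun v hv H => mem_sdiff.2 ⟨hv, H () (mem_univ _)⟩) sdiff_subset (fun _ _ => sdiff_disjoint)
      fun w hw => ?_).mono (by simp) Subset.rfl
    · obtain ⟨a, b⟩ := mem_filter.1 hv
      exact T.mem_ball.2 ⟨P3 a, by omega⟩
    · have a : cmp G (P \ P.filter (T.lv · ≤ r)) w ⊆ R := (cmp_sub.trans sdiff_subset).trans P3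
      refine (hk.wn hY ((map_subset_map.2 a).trans hRY) cn_cmp (ho _ a cn_cmp
        ⟨w, self_mem_cmp hw⟩ (disjoint_left.2 fun v hv hv' => ?_))).mono hkk Subset.rfl
      obtain ⟨b, c⟩ := mem_sdiff.1 (cmp_sub hv)
      exact c (mem_filter.2 ⟨b, (T.mem_ball.1 hv').2⟩)
  · rintro v hv (a | ⟨w, a, b⟩)
    · omega
    have c : cmp G NS w ⊆ NS := cmp_sub
    obtain ⟨q, -, hq⟩ := hc S S2 (fun v hv => (mem_filter.1 (S1 hv)).2) (cmp G NS w)
      (c.trans (hNS ▸ (filter_subset _ _).trans P2)) cn_cmp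
      fun x hx => by have := c hx; rw [hNS] at this; exact (mem_filter.1 this).2
    have := lv_rch T.toBf ((mem_ball.1 (hq (self_mem_cmp
      (mem_cmp.1 b).choose_spec.left))).symm.trans (mem_ball.1 (hq b)))
    omega
  · intro v hv v' hv' a hn
    by_cases b : 8 * X < T.lv v'
    · exact .inl (.inl b)
    by_cases c : v' ∈ C.light (16 * 2 ^ u) τ S (17 * τ) hh
    · exact .inr ⟨c, by omega⟩
    have d : v' ∈ NS := hNS ▸ mem_filter.2 ⟨hv', lt_of_not_ge fun e => by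
      obtain ⟨z, hz, f⟩ := nZ v' (P2 hv') e c
      exact (mem_filter.1 (P1 hv')).2 z hz (ball_mono Subset.rfl (by omega) f)⟩
    rcases a with a | ⟨w, a, f⟩
    · have := T.lip _ (P3 hv) _ (P3 hv') hn
      exact .inl (.inr ⟨v', by omega, self_mem_cmp d⟩)
    · exact .inl (.inr ⟨w, a, cmp_closed f hn d⟩)

end Pool.Agent.MP_de21d3_co.H85
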